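import Pool.Agent.Helper39.CT.NFF

/-!
Row NCT, near cells of the classes with tails: chains of extra forms for the repeated runs of two
and three letters (single runs only, no families).
-/

set_option autoImplicit false
set_option exponentiation.threshold 4000
noncomputable section
namespace Pool.Agent.Helper39.NFT

open Pool.Agent.Helper81.MIT
open Pool.Agent.Helper86.CX (Hm P9 VR ev Cx andB)
open Pool.Agent.Helper86.CT (LT2 Mo Mc Mq Sv Vx Cls Prog CellT Rw chkDT mk addM uM zM Alg mkCls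
  clsOK xAM xAOK)
open Pool.Agent.Helper90.C75 (Vt)
open Pool.Agent.Helper90.KMT (PT TOK KTab CLT)
open Pool.Agent.Helper17.KPT (MK)
open Pool.Agent.Helper6.MONO (V3 RV2 TCert kk mm RMb zw Kp xA LNI_mm Y0 xA_gt xA_le2 xA_max xA_swap)
open Pool.Agent.Helper6.MONO.QTR (V0 e0 TCell tcell_of_z)
open Pool.Agent.Helper6.MID
open Pool.Agent.Helper6.PIE (z_ne)
open Pool.Agent.Helper6.PRG (giS gsF gsF_giS)
open Pool.Agent.Helper6.MTC (FCert RK)
open Pool.Agent.Helper21.KCE (andB_tt)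
open Pool.Agent.Helper21.SUP (GS DG gM std sD_cons sD_nil gM_append)
open Pool.Agent.Helper21.SUP renaming nx → nxs
open Pool.Agent.Helper39.SLT (T4 ML BlkCert typ_cert)
open Pool.Agent.Helper39.NCL (WN wS NA single_all gM_one)
open Pool.Agent.Helper39.KNF (AD)
open Pool.Agent.Helper21.KRN (TProg PtR XM expand xOK cκ NZ KResT)
open Pool.Agent.Helper21.KTE (MZ KS wfK CLD chkDT_pt sideT)
open Pool.Agent.Helper48.NCT (IT FTT NDT chkNT chkPNT pcNT chkIT chkIT_pos ON fam3T hasIT hasIT_iff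
  cov4T cut_two cut_three)
open Pool.Agent.Helper57.KNB (FDT FamTOK)
open Pool.Agent.Helper21.XB (xBp thr_xBp xBM)
open Complex ComplexConjugate

variable {p q r : ℕ}

/-! ### chains at a point -/

theorem low_le3 (M : ℕ) (T : T4) : T.low M ≤ 3 := by
  cases T with
  | two => exact (by norm_num : (2 : ℕ) ≤ 3)
  | three =>
    show (if M = 3 then 3 else 2) ≤ 3
    split_ifs <;> norm_num
  | oth => exact (by norm_num : (2 : ℕ) ≤ 3)
  | full => exact le_rfl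

/-- repeated runs of `x` letters through the sets `F s` -/
theorem chain_of {w : ℂ} {x : ℕ} {F T : GS → Set (Fin 3 → ℂ)}
    (h2 : ∀ s, DG s → ∀ v ∈ F s, (RMb p q r s x w).mulVec v ∈ F (nxs s x))
    (h3 : ∀ s, DG s → ∀ v ∈ F s, v ∈ T s) {s : GS} (hs : DG s) {v : Fin 3 → ℂ}
    (h1 : (RMb p q r s x w).mulVec v ∈ F (nxs s x)) (k : ℕ) :
    (gM (RMb p q r) s (List.replicate (k + 1) x) w).mulVec v ∈
      T (Pool.Agent.Helper6.MONO.sD s (List.replicate (k + 1) x)) := by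
  have hD : ∀ (k : ℕ) (s : GS), DG s → DG (Pool.Agent.Helper6.MONO.sD s (List.replicate k x)) := by
    intro k
    induction k with
    | zero => intro s hs; exact hs
    | succ k ih =>
      intro s hs
      rw [List.replicate_succ, sD_cons]
      exact ih _ (Pool.Agent.Helper21.SUP.DG_nx s x hs)
  have hn := Pool.Agent.Helper21.SUP.DG_nx s x hs
  have a2 := single_all (RM := RMb p q r) (w := w) (x := x) (T := F) (S := {s | DG s})
    (fun u hu => Pool.Agent.Helper21.SUP.DG_nx u x hu) (fun u hu v hv => h2 u hu v hv) k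
    (nxs s x) hn _ h1
  have a3 := h3 _ (hD k _ hn) _ a2
  rw [List.replicate_succ]
  have e : (x :: List.replicate k x : List ℕ) = [x] ++ List.replicate k x := rfl
  rw [sD_cons, e, gM_append, ← Matrix.mulVec_mulVec, gM_one]
  have e2 : Pool.Agent.Helper6.MONO.sD s [x] = nxs s x := by rw [sD_cons, sD_nil]
  rw [e2]
  exact a3

/-! ### the cover -/

/-- a chain of forms: nodes `0 .. S`, `fn j i` = number of the form of the node `j` at the state
number `i` -/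
structure Ch where
  S : ℕ
  fn : ℕ → ℕ → ℕ

/-- the chain for the runs of `x` letters at a state, target type `X` -/
def covCh (x : ℕ) (X : T4) (p q r : ℕ) (BE BO : List ℕ) (G : TProg) (il : List IT) (c : Ch)
    (i : ℕ) : Bool :=
  ((tysT (ML p q r (gsF i))).all fun T =>
    if T.low (ML p q r (gsF i)) ≤ x ∧ T ≠ X then
      hasRun p q r BE BO G (gsF i) x (c.fn 0 (giS (nxs (gsF i) x))) (kidxT p q r (gsF i) T)
    else true) &&
  (List.range (c.S + 1)).all fun j =>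
    hasRun p q r BE BO G (gsF i) x (c.fn (min (j + 1) c.S) (giS (nxs (gsF i) x))) (c.fn j i) &&
      (c.fn j i == kidxT p q r (gsF i) X || hasIT il (kidxT p q r (gsF i) X) (c.fn j i))

def coverCh (x : ℕ) (X : T4) (p q r : ℕ) (BE BO : List ℕ) (G : TProg) (il : List IT) (c : Ch) :
    Bool :=
  (List.range 6).all fun i => covCh x X p q r BE BO G il c i

/-- the conclusion of a chain -/
def HX (x : ℕ) (X : T4) (p q r : ℕ) (z : ℂ) (K : ℕ → Hm ℝ) : Prop :=
  ∀ s, DG s → ∀ T : T4, T.ok (ML p q r s) → T.low (ML p q r s) ≤ x → T ≠ X → ∀ k : ℕ, ∀ v,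
    0 < ev (K (kidxT p q r s T)) v →
      0 < ev (K (kidxT p q r (Pool.Agent.Helper6.MONO.sD s (List.replicate (k + 1) x)) X))
        ((gM (RMb p q r) s (List.replicate (k + 1) x) (zw z)).mulVec v)

/-- THE REPEATED RUNS THROUGH A CHAIN -/
theorem hX_of_ch {x : ℕ} {X : T4} (hX : ∀ {M : ℕ} {T : T4}, cut M T = X → T = X) (x2 : 2 ≤ x)
    (x3 : x ≤ 3) (hp : 3 ≤ p) (hq : 3 ≤ q) (hr : 3 ≤ r) {z : ℂ} (hz : z ≠ 0) (hz1 : z + 1 ≠ 0)
    {K : ℕ → Hm ℝ} {G : TProg} (hK : KResT K (kR p q r) z G) {BE BO : List ℕ}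
    (hbr : brOK BE BO = true) {il : List IT} {c : Ch}
    (hc : coverCh x X (rep p) (rep q) (rep r) BE BO G il c = true)
    (hI : ∀ x ∈ il, ∀ y ∈ x.s, ∀ v, 0 < ev (K y.k) v → 0 < ev (K x.k) v) :
    HX x X p q r z K := by
  have h3m : ∀ s, DG s → 3 ≤ mm p q r s.1 s.2.1 := fun s h => LNI_mm hp hq hr _ _ h.1
  have hR : ∀ {s : GS}, DG s → ∀ {k k' : ℕ},
      hasRun (rep p) (rep q) (rep r) BE BO G s x k k' = true → ∀ v : Fin 3 → ℂ,
        0 < ev (K k') v → 0 < ev (K k) ((RMb p q r s x (zw z)).mulVec v) :=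
    fun {s} h {k k'} hb v hv => run_ofT hp hq hr hbr hz hz1 hK h x2
      (x3.trans (h3m s h)) hb v hv
  have hId : ∀ {k k' : ℕ}, hasIT il k k' = true → ∀ v : Fin 3 → ℂ, 0 < ev (K k') v →
      0 < ev (K k) v := by
    intro k k' hb v hv
    obtain ⟨x, hx, hk, y, hy, hk'⟩ := hasIT_iff hb
    rw [← hk]
    rw [← hk'] at hv
    exact hI x hx y hy v hv
  have at' : ∀ s, DG s → (∀ T : T4, T.ok (ML p q r s) → T.low (ML p q r s) ≤ x → T ≠ X →
      hasRun (rep p) (rep q) (rep r) BE BO G s x (c.fn 0 (giS (nxs s x)))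
        (kidxT p q r s T) = true) ∧ ∀ j, j ≤ c.S →
      hasRun (rep p) (rep q) (rep r) BE BO G s x (c.fn (min (j + 1) c.S) (giS (nxs s x)))
        (c.fn j (giS s)) = true ∧
      (c.fn j (giS s) = kidxT p q r s X ∨ hasIT il (kidxT p q r s X) (c.fn j (giS s)) = true) := by
    intro s hs
    obtain ⟨e, hi⟩ := gsF_giS s hs
    have hM3 : 3 ≤ ML p q r s := LNI_mm hp hq hr _ _ (fun e => hs.2.2 e.symm)
    unfold coverCh at hc
    rw [List.all_eq_true] at hc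
    have h3 := hc (giS s) (List.mem_range.2 hi)
    unfold covCh at h3
    rw [e, kidxT_rep p q r hs, Bool.and_eq_true] at h3
    refine ⟨?_, ?_⟩
    · intro T hT hl hT2
      have h4 := h3.1
      rw [ML_rep p q r hs, tysT_rep, List.all_eq_true] at h4
      have h5 := h4 _ (cut_mem hT)
      rw [low_rep _ hM3, if_pos ⟨(cut_low T).trans hl, fun h => hT2 (hX h)⟩,
        kidxT_rep p q r hs, kidxT_cut] at h5
      exact h5
    · intro j hj
      have h4 := h3.2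
      rw [List.all_eq_true] at h4
      have h5 := h4 j (List.mem_range.2 (by omega))
      rw [Bool.and_eq_true, Bool.or_eq_true, beq_iff_eq] at h5
      exact h5
  intro s hs T hT hl hT2 k v hv
  have h := chain_of (p := p) (q := q) (r := r) (w := zw z) (x := x)
    (F := fun s => {v : Fin 3 → ℂ | ∃ j, j ≤ c.S ∧ 0 < ev (K (c.fn j (giS s))) v})
    (T := fun s => {v : Fin 3 → ℂ | 0 < ev (K (kidxT p q r s X)) v})
    (fun u hu v hv => by
      obtain ⟨j, hj, hv⟩ := hv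
      exact ⟨min (j + 1) c.S, min_le_right _ _, hR hu ((at' u hu).2 j hj).1 v hv⟩)
    (fun u hu v hv => by
      obtain ⟨j, hj, hv⟩ := hv
      rcases ((at' u hu).2 j hj).2 with h | h
      · rw [h] at hv
        exact hv
      · exact hId h v hv)
    hs (v := v) ⟨0, Nat.zero_le _, hR hs ((at' s hs).1 T hT hl hT2) v hv⟩ k
  exact h

/-! ### the certificate -/

/-- chains for both letters: the data of a module -/
def modCC (a b c : Lb) (cA cB : Ch) (BE BO : List ℕ) (G : TProg) (il : List IT)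
    (sl : List ℕ) (le : List LT2) : Bool :=
  brOK BE BO && (((List.range 6).all fun i => cov4T a.rp b.rp c.rp BE BO G i) &&
    (coverCh 3 T4.three a.rp b.rp c.rp BE BO G il cA && (coverCh 2 T4.two a.rp b.rp c.rp BE BO G il cB
      && (covRTs a.rp b.rp c.rp G && (coverLT a.rp b.rp c.rp G && (covTT a.rp b.rp c.rp sl &&
        covLT a b c le))))))

/-- families or single runs at the walls, a chain for the runs of two letters -/
def modNC (a b c : Lb) (W0 W1 W2 : WN) (cB : Ch) (BE BO : List ℕ) (G : TProg) (il : List IT)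
    (sl : List ℕ) (le : List LT2) : Bool :=
  modN0 a b c true W0 W1 W2 BE BO G il sl le && coverCh 2 T4.two a.rp b.rp c.rp BE BO G il cB

/-- THE CERTIFICATE AT A POINT, walls and a chain -/
theorem near_certC (hp : 3 ≤ p) (hq : 3 ≤ q) (hr : 3 ≤ r) {a b c : Lb} (ha : a.has p)
    (hb : b.has q) (hc : c.has r) {z : ℂ} (hz : z ≠ 0) (hz1 : z + 1 ≠ 0) {K : ℕ → Hm ℝ}
    {G : TProg} {sl : List ℕ} {le : List LT2} (hP : PtR K (kR p q r) z G sl le)
    {W0 W1 W2 : WN} {cB : Ch} {BE BO : List ℕ} {il : List IT}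
    (hm : modNC a b c W0 W1 W2 cB BE BO G il sl le = true)
    (hI : ∀ x ∈ il, ∀ y ∈ x.s, ∀ v, 0 < ev (K y.k) v → 0 < ev (K x.k) v)
    (hfam : ∀ s, DG s → giS s < 3 → (wS W0 W1 W2 (giS s)).f = true → ∀ m : ℕ, ∀ v,
      0 < ev (K (wS W0 W1 W2 (giS s)).e) v → 0 < ev (K (wS W0 W1 W2 (giS s)).x)
        ((gM (RMb p q r) s (List.replicate 2 3) (zw z) ^ (m + 1)).mulVec v)) :
    TCert V0 e0 p q r CBT (zw z) (RK fun s T => K (kidxT p q r s T)) := by
  unfold modNC at hm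
  rw [Bool.and_eq_true] at hm
  obtain ⟨m1, m2⟩ := hm
  have hbr : brOK BE BO = true := by
    unfold modN0 at m1
    rw [Bool.and_eq_true] at m1
    have := m1.1
    unfold Pool.Agent.Helper48.NCT.coverNT at this
    rw [Bool.and_eq_true] at this
    exact this.1
  rw [lb_rp ha, lb_rp hb, lb_rp hc] at m2
  exact near_certB hp hq hr ha hb hc hz hz1 hP m1 hI hfam fun _ =>
    hX_of_ch (fun h => cut_two h) le_rfl (by norm_num) hp hq hr hz hz1 hP.res hbr m2 hI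

/-- THE CERTIFICATE AT A POINT, two chains -/
theorem near_certCC (hp : 3 ≤ p) (hq : 3 ≤ q) (hr : 3 ≤ r) {a b c : Lb} (ha : a.has p)
    (hb : b.has q) (hc : c.has r) {z : ℂ} (hz : z ≠ 0) (hz1 : z + 1 ≠ 0) {K : ℕ → Hm ℝ}
    {G : TProg} {sl : List ℕ} {le : List LT2} (hP : PtR K (kR p q r) z G sl le)
    {cA cB : Ch} {BE BO : List ℕ} {il : List IT}
    (hm : modCC a b c cA cB BE BO G il sl le = true)
    (hI : ∀ x ∈ il, ∀ y ∈ x.s, ∀ v, 0 < ev (K y.k) v → 0 < ev (K x.k) v) :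
    TCert V0 e0 p q r CBT (zw z) (RK fun s T => K (kidxT p q r s T)) := by
  unfold modCC at hm
  rw [lb_rp ha, lb_rp hb, lb_rp hc] at hm
  simp only [Bool.and_eq_true] at hm
  obtain ⟨hbr, m4, mA, mB, m2, m3, m5, m6⟩ := hm
  have hF := fcert_ofT hp hq hr ha hb hc hz hz1 hP.res m2 (κ := 1 / 2 ^ 10) (M := 2 ^ 12) m5
    hP.neg hP.bd (lposT_of hz hz1 m3 hP.res) m6 (slitT_of ha hb hc hP)
  have hA := hX_of_ch (fun h => cut_three h) (by norm_num) le_rfl hp hq hr hz hz1 hP.res hbr mA hI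
  have hB := hX_of_ch (fun h => cut_two h) le_rfl (by norm_num) hp hq hr hz hz1 hP.res hbr mB hI
  have h3m : ∀ s, DG s → 3 ≤ mm p q r s.1 s.2.1 := fun s h => LNI_mm hp hq hr _ _ h.1
  refine hF.tcert (by positivity) (typ_cert hp hq hr (fun _ => rfl) (fun _ => rfl)
    (fun _ _ => rfl) (ga := true) (gb := true) ?_ ?_ ?_ ?_ ?_)
  · intro s hs T hT m h4 hm v hv
    obtain ⟨e, hi⟩ := gsF_giS s hs
    rw [List.all_eq_true] at m4
    have c4 := m4 (giS s) (List.mem_range.2 hi)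
    have eL := ML_rep p q r hs
    have eM := mm_rep p q r _ _ hs.1
    unfold cov4T at c4
    rw [e, eM, msT_rep, List.all_eq_true] at c4
    have h5 := c4 _ (cutm_mem (by omega) hm)
    have h4' : 4 ≤ cutm (mm p q r s.1 s.2.1) m := by
      unfold cutm
      split_ifs
      · omega
      · exact h4
    rw [if_pos h4', eL, tysT_rep, List.all_eq_true] at h5
    have h6 := h5 _ (cut_mem hT)
    rw [kidxT_rep p q r hs, kidxT_cut, kidxT_rep p q r (Pool.Agent.Helper21.SUP.DG_nx s _ hs),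
      kidxT_next hs (by omega)] at h6
    have h7 := hasRun_cutm (p := rep p) (q := rep q) (r := rep r) BE BO G s m
      (kidxT p q r (nxs s m) (T4.next (mm p q r s.1 s.2.1) m)) (kidxT p q r s T)
    rw [eM, cutm_rep] at h7
    rw [h7] at h6
    exact run_ofT hp hq hr hbr hz hz1 hP.res hs (by omega) hm h6 v hv
  · intro h0
    exact absurd h0 (by decide)
  · intro _ s hs T hT hT3 k v hv
    exact hA s hs T hT (low_le3 _ _) hT3 k v hv
  · intro h0
    exact absurd h0 (by decide)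
  · intro _ s hs T hT hl hT2 k v hv
    exact hB s hs T hT hl hT2 k v hv

/-! ### cells and lists -/

section

variable {α β P v γ : Type} {D : ℕ} {lC : α → Vt D → Cx} {lf : α → Vt D → ℂ}
  {mf : (ℕ → ℝ) → β → (ℕ → ℝ) → ℝ} {lp : P → Vt D → P9} {lv : v → Vt D → VR}
  {lg : γ → Vt D → ℕ} {Sp : P → List Bool → Prop} {Sv' : v → List Bool → Prop}
  {Sg : γ → List Bool → Prop} {M : Mc α β P v γ}

/-- the certificate of a point from the identities and the families of a cell -/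
def PtC (p q r : ℕ) (G : TProg) (sl : List ℕ) (le : List LT2) (il : List IT) (W0 W1 W2 : WN) : Prop :=
  ∀ {z : ℂ}, z ≠ 0 → z + 1 ≠ 0 → ∀ {K : ℕ → Hm ℝ}, PtR K (kR p q r) z G sl le →
    (∀ x ∈ il, ∀ y ∈ x.s, ∀ v, 0 < ev (K y.k) v → 0 < ev (K x.k) v) →
    (∀ s, DG s → giS s < 3 → (wS W0 W1 W2 (giS s)).f = true → ∀ m : ℕ, ∀ v,
      0 < ev (K (wS W0 W1 W2 (giS s)).e) v → 0 < ev (K (wS W0 W1 W2 (giS s)).x)
        ((gM (RMb p q r) s (List.replicate 2 3) (zw z) ^ (m + 1)).mulVec v)) →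
    TCert V0 e0 p q r CBT (zw z) (RK fun s T => K (kidxT p q r s T))

/-- A LIST OF NEAR CELLS, any certificate of the points -/
theorem list_NG (hM : MK D lC lf mf lp lv lg Sp Sv' Sg M)
    (hn : ∀ (f : ℕ → ℝ) (T : β) (t : ℕ → ℝ), PT D t → (∀ x, 0 ≤ f x) → 0 ≤ mf f T t)
    {ONE : β} (h1 : ON mf ONE) {F : FTT α β (FDT β)} (hF : FamTOK D lf mf F) (hp : 3 ≤ p)
    (hq : 3 ≤ q) (hr : 3 ≤ r) {x0 : ℝ} (x1 : -2 < x0) (x2 : x0 ≤ 2)
    (t1 : xA p q r ≤ x0) (t2 : xA q r p ≤ x0) (t3 : xA r p q ≤ x0)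
    {W0 W1 W2 : WN} {G : TProg} {il : List IT} {sl : List ℕ} {le : List LT2}
    (hPt : PtC p q r G sl le il W0 W1 W2)
    {S : Sv P} {W : Vx β} {Y : ℕ → ℕ → α} {k0 k1 k2 : Mo α} {C : Cls α} {Ge : Prog v}
    {X : Mo α} {f0 f1 f2 : Bool} (g0 : f0 = W0.f) (g1 : f1 = W1.f) (g2 : f2 = W2.f)
    {sc : CellT α β → Bool} {l : List (NDT α β (FDT β))} (hl : l ≠ []) {As : List NA}
    (hs : sideLT (sideNT W0 W1 W2 sc) l As = true)
    (hD : ∀ d : CellT α β, sc d = true → chkDT M S W Y C Ge X sl le d = true →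
      CAll D lf mf M.A p q r x0 G sl le k0 k1 k2 C (addM M.A X (mk M.A (Y d.ya d.yb) (nat_lit 0)))
        d) {y e : ℕ}
    (H : chkPNT M S W Y F f0 f1 f2 k0 k1 k2 C Ge X sl le ONE il e l y = true) :
    TCell p q r x0 ((y : ℝ) / 2 ^ 48) ((e : ℝ) / 2 ^ 48) := by
  subst g0
  subst g1
  subst g2
  obtain ⟨d, l, rfl⟩ := List.exists_cons_of_ne_nil hl
  refine pcNT_tcell l d As y H hs fun u hu A hA hc' => ?_
  unfold sideNT at hA
  simp only [Bool.and_eq_true] at hA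
  obtain ⟨h0, h2, h3, h4⟩ := hA
  obtain ⟨H1, H'⟩ := andB_tt hc'
  obtain ⟨H2, H3⟩ := andB_tt H'
  refine tcell_of_z x1 x2 CBT ?_
  intro z y hy0 hya hyb hz _ _ hui hzx
  obtain ⟨t, h⟩ := hD u.c h0 H1 hy0 hya hyb hz hui hzx
  have hI := chkIT_pos hM hn h1 H2 h.pt
  have hz1 := z_ne x1 hzx
  have hN : NZ (kap3 p q r) z := by
    have h2 := h.P.nz
    rwa [cκ_kR] at h2
  have hfam := fam_ptT (famOKT_of hF) hp hq hr x1 t1 t2 t3 h.pt hy0 hz hzx hN h.a0 h.a1 h.a2 h.C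
    h.u h.z (sideWT_iff h2) (sideWT_iff h3) (sideWT_iff h4) H3
  exact ⟨_, hPt hz hz1 h.P hI hfam⟩

end

section

variable {α β P v γ : Type} {D : ℕ} {lC : α → Vt (D + 1) → Cx} {lf : α → Vt (D + 1) → ℂ}
  {mf : (ℕ → ℝ) → β → (ℕ → ℝ) → ℝ} {lp : P → Vt (D + 1) → P9} {lv : v → Vt (D + 1) → VR}
  {lg : γ → Vt (D + 1) → ℕ} {Sa : α → List Bool → Prop} {Sp : P → List Bool → Prop}
  {Sv' : v → List Bool → Prop} {Sg : γ → List Bool → Prop} {M : Mc α β P v γ}
  {S : Sv P} {W : Vx β} {Y : ℕ → ℕ → α} {qd : ℕ → Cx → Cx → Cx → α} {rt : α → Bool}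

/-- A MODULE OF NEAR CELLS, any line given by a model, any certificate of the points -/
theorem nearT_G {X : XM α v}
    (hZ : MZ D lC lf mf lp lv lg Sa Sp Sv' Sg M X.Q X.c X.r S W Y qd rt) {ONE : β}
    (h1 : ON mf ONE) {F : FTT α β (FDT β)} (hF : FamTOK (D + 1) lf mf F)
    (hp : 3 ≤ p) (hq : 3 ≤ q) (hr : 3 ≤ r)
    {s0 s1 s2 : KS} {Xo : Mo α} {x0 : ℝ} (hC : CLD D lf M qd rt X Xo s0 s1 s2 (kR p q r) x0)
    (x1 : -2 < x0) (x2 : x0 ≤ 2) (t1 : xA p q r ≤ x0) (t2 : xA q r p ≤ x0) (t3 : xA r p q ≤ x0)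
    {W0 W1 W2 : WN} {G : TProg} {il : List IT} {sl : List ℕ} {le : List LT2}
    (hPt : PtC p q r G sl le il W0 W1 W2)
    {f0 f1 f2 : Bool} (g0 : f0 = W0.f) (g1 : f1 = W1.f) (g2 : f2 = W2.f)
    {l : List (NDT α β (FDT β))} (hl : l ≠ []) {As : List NA}
    (hs : sideLT (sideNT W0 W1 W2 (sideT W le)) l As = true) {y e : ℕ}
    (H : chkPNT M S W Y F f0 f1 f2 X.k0 X.k1 X.k2 (mkCls M.A X.k0 X.k1 X.k2) (expand X G)
      Xo sl le ONE il e l y = true) :
    TCell p q r x0 ((y : ℝ) / 2 ^ 48) ((e : ℝ) / 2 ^ 48) := by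
  refine list_NG hZ.m.k hZ.w.pos h1 hF hp hq hr x1 x2 t1 t2 t3 hPt g0 g1 g2 hl hs ?_ H
  intro d hd hk z h hh0 hha hhb hz hui hzx
  obtain ⟨t, b1, b2, b3, b4, b5, b6, b7, b8⟩ := chkDT_pt hZ hC hd hk (h := h)
    (by rw [div_le_iff₀ (by positivity)] at hha; linarith)
    (by rw [le_div_iff₀ (by positivity)] at hhb; linarith) hz hzx hui
  rw [cκ_kR] at b6
  exact ⟨t, b1, b2, b3, b4, b5, b6, b7, b8⟩

/-- line `x_B`, two chains -/
theorem nearT_xCC {X : XM α v}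
    (hZ : MZ D lC lf mf lp lv lg Sa Sp Sv' Sg M X.Q X.c X.r S W Y qd rt) (hD : D ≤ 3) {ONE : β}
    (h1 : ON mf ONE) {F : FTT α β (FDT β)} (hF : FamTOK (D + 1) lf mf F) {a b c : Lb}
    (ha : a.has p) (hb : b.has q) (hc : c.has r) (hp : 14 ≤ p) (hq : 14 ≤ q) (hr : 14 ≤ r)
    {s0 s1 s2 : KS} {C : α} {n : ℕ} (hx : modXB M rt D X C n s0 s1 s2 a b c = true)
    (e0 : X.k0 = s0.mo M.A qd) (e1 : X.k1 = s1.mo M.A qd) (e2 : X.k2 = s2.mo M.A qd)
    {W0 W1 W2 : WN} {cA cB : Ch} {BE BO : List ℕ} {G : TProg} {il : List IT} {sl : List ℕ}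
    {le : List LT2} (hm : modCC a b c cA cB BE BO G il sl le = true)
    {f0 f1 f2 : Bool} (g0 : f0 = W0.f) (g1 : f1 = W1.f) (g2 : f2 = W2.f)
    {l : List (NDT α β (FDT β))} (hl : l ≠ []) {As : List NA}
    (hs : sideLT (sideNT W0 W1 W2 (sideT W le)) l As = true) {y e : ℕ}
    (H : chkPNT M S W Y F f0 f1 f2 X.k0 X.k1 X.k2 (mkCls M.A X.k0 X.k1 X.k2) (expand X G)
      (xBM M.A X.k0 X.k1 X.k2 C n) sl le ONE il e l y = true) :
    TCell p q r (xBp p q r) ((y : ℝ) / 2 ^ 48) ((e : ℝ) / 2 ^ 48) := by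
  have hC := cld_B (X := X) hZ hD ha hb hc hp hq hr hx e0 e1 e2
  have hT := thr_xBp hp hq hr
  refine nearT_G hZ h1 hF (by omega) (by omega) (by omega) hC hT.gt hT.le hT.A1 hT.A2 hT.A3
    (W0 := W0) (W1 := W1) (W2 := W2) ?_ g0 g1 g2 hl hs H
  intro z hz hz1 K hP hI _
  exact near_certCC (by omega) (by omega) (by omega) ha hb hc hz hz1 hP hm hI

/-- line `x_B`, walls (families or single runs) and a chain for the runs of two letters -/
theorem nearT_xC {X : XM α v}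
    (hZ : MZ D lC lf mf lp lv lg Sa Sp Sv' Sg M X.Q X.c X.r S W Y qd rt) (hD : D ≤ 3) {ONE : β}
    (h1 : ON mf ONE) {F : FTT α β (FDT β)} (hF : FamTOK (D + 1) lf mf F) {a b c : Lb}
    (ha : a.has p) (hb : b.has q) (hc : c.has r) (hp : 14 ≤ p) (hq : 14 ≤ q) (hr : 14 ≤ r)
    {s0 s1 s2 : KS} {C : α} {n : ℕ} (hx : modXB M rt D X C n s0 s1 s2 a b c = true)
    (e0 : X.k0 = s0.mo M.A qd) (e1 : X.k1 = s1.mo M.A qd) (e2 : X.k2 = s2.mo M.A qd)
    {W0 W1 W2 : WN} {cB : Ch} {BE BO : List ℕ} {G : TProg} {il : List IT} {sl : List ℕ}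
    {le : List LT2} (hm : modNC a b c W0 W1 W2 cB BE BO G il sl le = true)
    {f0 f1 f2 : Bool} (g0 : f0 = W0.f) (g1 : f1 = W1.f) (g2 : f2 = W2.f)
    {l : List (NDT α β (FDT β))} (hl : l ≠ []) {As : List NA}
    (hs : sideLT (sideNT W0 W1 W2 (sideT W le)) l As = true) {y e : ℕ}
    (H : chkPNT M S W Y F f0 f1 f2 X.k0 X.k1 X.k2 (mkCls M.A X.k0 X.k1 X.k2) (expand X G)
      (xBM M.A X.k0 X.k1 X.k2 C n) sl le ONE il e l y = true) :
    TCell p q r (xBp p q r) ((y : ℝ) / 2 ^ 48) ((e : ℝ) / 2 ^ 48) := by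
  have hC := cld_B (X := X) hZ hD ha hb hc hp hq hr hx e0 e1 e2
  have hT := thr_xBp hp hq hr
  refine nearT_G hZ h1 hF (by omega) (by omega) (by omega) hC hT.gt hT.le hT.A1 hT.A2 hT.A3
    (W0 := W0) (W1 := W1) (W2 := W2) ?_ g0 g1 g2 hl hs H
  intro z hz hz1 K hP hI hfam
  exact near_certC (by omega) (by omega) (by omega) ha hb hc hz hz1 hP hm hI hfam

/-- line `xA`, labels with `p ≤ r` and `q ≤ r`, walls and a chain for the runs of two letters -/
theorem nearT_lbC {X : XM α v}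
    (hZ : MZ D lC lf mf lp lv lg Sa Sp Sv' Sg M X.Q X.c X.r S W Y qd rt) (hD : D ≤ 3) {ONE : β}
    (h1 : ON mf ONE) {F : FTT α β (FDT β)} (hF : FamTOK (D + 1) lf mf F) {a b c : Lb}
    (ha : a.has p) (hb : b.has q) (hc : c.has r) (h13 : lbLe a c = true) (h23 : lbLe b c = true)
    {s0 s1 s2 : KS} (hx : modXT M rt D X s0 s1 s2 a b c = true)
    (e0 : X.k0 = s0.mo M.A qd) (e1 : X.k1 = s1.mo M.A qd) (e2 : X.k2 = s2.mo M.A qd)
    {W0 W1 W2 : WN} {cB : Ch} {BE BO : List ℕ} {G : TProg} {il : List IT} {sl : List ℕ}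
    {le : List LT2} (hm : modNC a b c W0 W1 W2 cB BE BO G il sl le = true)
    {f0 f1 f2 : Bool} (g0 : f0 = W0.f) (g1 : f1 = W1.f) (g2 : f2 = W2.f)
    {l : List (NDT α β (FDT β))} (hl : l ≠ []) {As : List NA}
    (hs : sideLT (sideNT W0 W1 W2 (sideT W le)) l As = true) {y e : ℕ}
    (H : chkPNT M S W Y F f0 f1 f2 X.k0 X.k1 X.k2 (mkCls M.A X.k0 X.k1 X.k2) (expand X G)
      (xAM M.A X.k0 X.k1 X.k2) sl le ONE il e l y = true) :
    TCell p q r (xA p q r) ((y : ℝ) / 2 ^ 48) ((e : ℝ) / 2 ^ 48) := by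
  have hp := has_ge ha
  have hq := has_ge hb
  have hr := has_ge hc
  have hpr := lbLe_ok h13 ha hc
  have hqr := lbLe_ok h23 hb hc
  have hC := cld_A (X := X) hZ hD ha hb hc hx e0 e1 e2
  have t3 : xA q r p ≤ xA p q r := by
    have h := xA_max hq hp hpr
    rw [xA_swap p q r] at h
    rwa [xA_swap q r p] at h
  refine nearT_G hZ h1 hF hp hq hr hC (xA_gt hp hq hqr) (xA_le2 hp hq hr) le_rfl
    t3 (xA_max hp hq hqr) (W0 := W0) (W1 := W1) (W2 := W2) ?_ g0 g1 g2 hl hs H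
  intro z hz hz1 K hP hI hfam
  exact near_certC hp hq hr ha hb hc hz hz1 hP hm hI hfam

end

end Pool.Agent.Helper39.NFT
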