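import Pool.Agent.Helper96.CT.Stmts

/-! # CT: the row LO -/

set_option autoImplicit false

namespace Pool.Agent.Helper39.CT

open SimpleGraph Pool.Agent.Helper96.CT

/-- the vertices -/
abbrev VV (a b t : ℕ) : Type := Fin b ⊕ (Fin t × Fin a)

/-- the clique of a vertex -/
def cp {a b t : ℕ} : VV a b t → Option (Fin t)
  | .inl _ => none
  | .inr p => some p.1

/-- the graph with the centre `c` and the joined vertices `inr (i, r)` -/
def FF {a b t : ℕ} (c : Fin b) (r : Fin a) : SimpleGraph (VV a b t) where
  Adj u v := u ≠ v ∧ (cp u = cp v ∨ (u = Sum.inl c ∧ ∃ i, v = Sum.inr (i, r)) ∨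
    (v = Sum.inl c ∧ ∃ i, u = Sum.inr (i, r)))
  symm := ⟨fun u v h => ⟨h.1.symm, by
    rcases h.2 with h | h | h
    · exact Or.inl h.symm
    · exact Or.inr (Or.inr h)
    · exact Or.inr (Or.inl h)⟩⟩
  loopless := ⟨fun u h => h.1 rfl⟩

theorem same {a b t : ℕ} (c : Fin b) (r : Fin a) (l : List (VV a b t)) :
    ∀ x, (x :: l).IsChain (FF c r).Adj → Sum.inl c ∉ x :: l → ∀ y ∈ l, cp y = cp x := by
  induction l with
  | nil => intro x _ _ y hy; simp at hy
  | cons z l ih =>
    intro x h hc y hy
    rw [List.isChain_cons_cons] at h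
    have hz : cp z = cp x := by
      rcases h.1.2 with h1 | ⟨h1, _⟩ | ⟨h1, _⟩
      · exact h1.symm
      · exact absurd (by rw [h1]; simp) hc
      · exact absurd (by rw [h1]; simp) hc
    have hc' : Sum.inl c ∉ z :: l := fun h' => hc (List.mem_cons_of_mem _ h')
    rcases List.mem_cons.1 hy with rfl | hy
    · exact hz
    · rw [ih z h.2 hc' y hy, hz]

theorem same' {a b t : ℕ} (c : Fin b) (r : Fin a) {l : List (VV a b t)}
    (h : l.IsChain (FF c r).Adj) (hc : Sum.inl c ∉ l) :
    ∃ α, ∀ y ∈ l, cp y = α := by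
  cases l with
  | nil => exact ⟨none, by simp⟩
  | cons x l =>
    refine ⟨cp x, fun y hy => ?_⟩
    rcases List.mem_cons.1 hy with rfl | hy
    · rfl
    · exact same c r l x h hc y hy

theorem len_some {a b t : ℕ} {l : List (VV a b t)} (hn : l.Nodup) (i : Fin t)
    (h : ∀ y ∈ l, cp y = some i) : l.length ≤ a := by
  classical
  have hs : l.toFinset ⊆ (Finset.univ : Finset (Fin a)).image (fun x => Sum.inr (i, x)) := by
    intro y hy
    have hy' := h y (List.mem_toFinset.1 hy)
    rcases y with x | ⟨j, x⟩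
    · simp [cp] at hy'
    · simp only [cp, Option.some.injEq] at hy'
      rw [hy']
      simp
  have := Finset.card_le_card hs
  rw [List.toFinset_card_of_nodup hn] at this
  exact this.trans (Finset.card_image_le.trans (by simp))

theorem len_none {a b t : ℕ} {l : List (VV a b t)} (hn : l.Nodup) (c : Fin b)
    (hc : Sum.inl c ∉ l) (h : ∀ y ∈ l, cp y = none) : l.length + 1 ≤ b := by
  classical
  have hs : (Sum.inl c :: l).toFinset ⊆
      (Finset.univ : Finset (Fin b)).image (fun x => Sum.inl x) := by
    intro y hy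
    rw [List.mem_toFinset, List.mem_cons] at hy
    rcases hy with rfl | hy
    · simp
    · have hy' := h y hy
      rcases y with x | ⟨j, x⟩
      · simp
      · simp [cp] at hy'
  have := Finset.card_le_card hs
  rw [List.toFinset_card_of_nodup (List.nodup_cons.2 ⟨hc, hn⟩), List.length_cons] at this
  exact this.trans (Finset.card_image_le.trans (by simp))

theorem len_le {a b t : ℕ} {l : List (VV a b t)} (hab : a + 1 ≤ b) (hn : l.Nodup) (c : Fin b)
    (hc : Sum.inl c ∉ l) {α : Option (Fin t)} (h : ∀ y ∈ l, cp y = α) : l.length + 1 ≤ b := by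
  cases α with
  | none => exact len_none hn c hc h
  | some i => exact (Nat.succ_le_succ (len_some hn i h)).trans hab

theorem st_LO : ST_LO := by
  intro a b t ha hab ht
  have hb : 0 < b := by omega
  obtain ⟨c, hc⟩ : ∃ c : Fin b, c.val = 0 := ⟨⟨0, hb⟩, rfl⟩
  obtain ⟨r, hr⟩ : ∃ r : Fin a, r.val = 0 := ⟨⟨0, by omega⟩, rfl⟩
  obtain ⟨c1, hc1⟩ : ∃ c : Fin b, c.val = 1 := ⟨⟨1, by omega⟩, rfl⟩
  obtain ⟨r1, hr1⟩ : ∃ r : Fin a, r.val = 1 := ⟨⟨1, by omega⟩, rfl⟩
  obtain ⟨i0, hi0⟩ : ∃ i : Fin t, i.val = 0 := ⟨⟨0, by omega⟩, rfl⟩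
  have hcc : c1 ≠ c := fun h => by rw [h, hc] at hc1; omega
  have hrr : r1 ≠ r := fun h => by rw [h, hr] at hr1; omega
  refine ⟨VV a b t, inferInstance, FF c r, by simp [VV], ?_, ?_, ?_, ?_⟩
  · have key : ∀ v : VV a b t, (FF c r).Reachable (Sum.inl c) v := by
      intro v
      rcases v with x | ⟨i, x⟩
      · by_cases hx : x = c
        · rw [hx]
        · exact Adj.reachable ⟨fun h => hx (Sum.inl.inj h).symm, Or.inl rfl⟩
      · have h1 : (FF c r).Adj (Sum.inl c) (Sum.inr (i, r)) :=
          ⟨by simp, Or.inr (Or.inl ⟨rfl, i, rfl⟩)⟩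
        by_cases hx : x = r
        · rw [hx]; exact h1.reachable
        · exact h1.reachable.trans (Adj.reachable
            ⟨fun h => hx (Prod.mk.inj (Sum.inr.inj h)).2.symm, Or.inl rfl⟩)
    have : Nonempty (VV a b t) := ⟨Sum.inl c⟩
    exact ⟨fun u v => (key u).symm.trans (key v)⟩
  · have k1 : ∀ x : Fin b, x ≠ c → ∀ p : Fin t × Fin a,
        (FF c r)ᶜ.Adj (Sum.inl x) (Sum.inr p) := by
      intro x hx p
      rw [compl_adj]
      refine ⟨by simp, fun h => ?_⟩
      rcases h.2 with h1 | ⟨h1, _⟩ | ⟨h1, _⟩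
      · simp [cp] at h1
      · exact hx (Sum.inl.inj h1)
      · simp at h1
    have k2 : (FF c r)ᶜ.Adj (Sum.inl c) (Sum.inr (i0, r1)) := by
      rw [compl_adj]
      refine ⟨by simp, fun h => ?_⟩
      rcases h.2 with h1 | ⟨_, i, h1⟩ | ⟨h1, _⟩
      · simp [cp] at h1
      · exact hrr (Prod.mk.inj (Sum.inr.inj h1)).2
      · simp at h1
    have key : ∀ v : VV a b t, (FF c r)ᶜ.Reachable (Sum.inl c1) v := by
      intro v
      rcases v with x | p
      · by_cases hx : x = c
        · rw [hx]
          exact (k1 c1 hcc (i0, r1)).reachable.trans k2.symm.reachable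
        · exact (k1 c1 hcc (i0, r1)).reachable.trans (k1 x hx (i0, r1)).symm.reachable
      · exact (k1 c1 hcc p).reachable
    have : Nonempty (VV a b t) := ⟨Sum.inl c⟩
    exact ⟨fun u v => (key u).symm.trans (key v)⟩
  · intro I hI
    have hinj : Set.InjOn (cp : VV a b t → Option (Fin t)) (I : Set (VV a b t)) := by
      intro x hx y hy hxy
      by_contra hne
      exact hI x hx y hy hne ⟨hne, Or.inl hxy⟩
    have := Finset.card_le_card_of_injOn (t := (Finset.univ : Finset (Option (Fin t)))) cp
      (fun x _ => Finset.mem_coe.2 (Finset.mem_univ _)) hinj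
    simpa using this
  · intro l hn hl
    by_cases hcl : Sum.inl c ∈ l
    · obtain ⟨l1, l2, rfl⟩ := List.append_of_mem hcl
      rw [List.nodup_append] at hn
      obtain ⟨n1, n2, n3⟩ := hn
      rw [List.nodup_cons] at n2
      have hc1 : Sum.inl c ∉ l1 := fun h => n3 _ h _ (List.mem_cons_self ..) rfl
      have h1 : l1.IsChain (FF c r).Adj := (List.isChain_append.1 hl).1
      have h2 : l2.IsChain (FF c r).Adj := (List.isChain_append.1 hl).2.1.tail
      obtain ⟨α, hα⟩ := same' c r h1 hc1
      obtain ⟨β, hβ⟩ := same' c r h2 n2.1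
      have b1 := len_le hab n1 c hc1 hα
      have b2 := len_le hab n2.2 c n2.1 hβ
      rw [List.length_append, List.length_cons]
      cases α with
      | some i =>
        have := len_some n1 i hα
        omega
      | none =>
        cases β with
        | some i =>
          have := len_some n2.2 i hβ
          omega
        | none =>
          have hn12 : (l1 ++ l2).Nodup := by
            rw [List.nodup_append]
            exact ⟨n1, n2.2, fun x hx y hy => n3 x hx y (List.mem_cons_of_mem _ hy)⟩
          have hc12 : Sum.inl c ∉ l1 ++ l2 := by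
            rw [List.mem_append]
            rintro (h | h)
            · exact hc1 h
            · exact n2.1 h
          have := len_none hn12 c hc12 (fun y hy => by
            rcases List.mem_append.1 hy with h | h
            · exact hα y h
            · exact hβ y h)
          rw [List.length_append] at this
          omega
    · obtain ⟨α, hα⟩ := same' c r hl hcl
      have := len_le hab hn c hcl hα
      omega

end Pool.Agent.Helper39.CT
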