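import Pool.Agent.Helper96.CT.Stmts3
import Pool.Agent.Helper39.CT.LO

/-! # CT: the row HB -/

set_option autoImplicit false

namespace Pool.Agent.Helper39.CT

open SimpleGraph Pool.Agent.Helper96.CT

/-- the clique of a vertex as a number -/
def cn {a b t : ℕ} : VV a b t → ℕ
  | .inl _ => 0
  | .inr p => p.1.val + 1

theorem cn_of_cp {a b t : ℕ} {u v : VV a b t} (h : cp u = cp v) : cn u = cn v := by
  rcases u with x | ⟨i, x⟩ <;> rcases v with y | ⟨j, y⟩
  · rfl
  · simp [cp] at h
  · simp [cp] at h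
  · simp only [cp, Option.some.injEq] at h
    simp [cn, h]

theorem st_HB : ST_HB := by
  intro t' a ht' ha
  obtain ⟨t, rfl⟩ : ∃ t, t' = t + 1 := ⟨t' - 1, by omega⟩
  have ht : 1 ≤ t := by omega
  obtain ⟨b, hb1⟩ : ∃ b, b = a + 1 := ⟨_, rfl⟩
  have hab : a + 1 ≤ b := by omega
  have hb : 0 < b := by omega
  obtain ⟨c, hc⟩ : ∃ c : Fin b, c.val = 0 := ⟨⟨0, hb⟩, rfl⟩
  obtain ⟨r, hr⟩ : ∃ r : Fin a, r.val = 0 := ⟨⟨0, by omega⟩, rfl⟩
  obtain ⟨c1, hc1⟩ : ∃ c : Fin b, c.val = 1 := ⟨⟨1, by omega⟩, rfl⟩
  obtain ⟨r1, hr1⟩ : ∃ r : Fin a, r.val = 1 := ⟨⟨1, by omega⟩, rfl⟩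
  obtain ⟨i0, hi0⟩ : ∃ i : Fin t, i.val = 0 := ⟨⟨0, by omega⟩, rfl⟩
  have hcc : c1 ≠ c := fun h => by rw [h, hc] at hc1; omega
  have hrr : r1 ≠ r := fun h => by rw [h, hr] at hr1; omega
  refine ⟨VV a b t, inferInstance, FF c r, Sum.inl c, cn, by
    simp [VV, hb1]
    ring, ?_, ?_, ?_, ?_, ?_⟩
  · have key : ∀ v : VV a b t, (FF c r).Reachable (Sum.inl c) v := by
      intro v
      rcases v with x | ⟨i, x⟩
      · by_cases hx : x = c
        · rw [hx]
        · exact Adj.reachable ⟨fun h => hx (Sum.inl.inj h).symm, Or.inl rfl⟩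
      · have h1 : (FF c r).Adj (Sum.inl c) (Sum.inr (i, r)) :=
          ⟨by simp, Or.inr (Or.inl ⟨rfl, i, rfl⟩)⟩
        by_cases hx : x = r
        · rw [hx]; exact h1.reachable
        · exact h1.reachable.trans (Adj.reachable
            ⟨fun h => hx (Prod.mk.inj (Sum.inr.inj h)).2.symm, Or.inl rfl⟩)
    have : Nonempty (VV a b t) := ⟨Sum.inl c⟩
    exact ⟨fun u v => (key u).symm.trans (key v)⟩
  · have k1 : ∀ x : Fin b, x ≠ c → ∀ p : Fin t × Fin a,
        (FF c r)ᶜ.Adj (Sum.inl x) (Sum.inr p) := by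
      intro x hx p
      rw [compl_adj]
      refine ⟨by simp, fun h => ?_⟩
      rcases h.2 with h1 | ⟨h1, _⟩ | ⟨h1, _⟩
      · simp [cp] at h1
      · exact hx (Sum.inl.inj h1)
      · simp at h1
    have k2 : (FF c r)ᶜ.Adj (Sum.inl c) (Sum.inr (i0, r1)) := by
      rw [compl_adj]
      refine ⟨by simp, fun h => ?_⟩
      rcases h.2 with h1 | ⟨_, i, h1⟩ | ⟨h1, _⟩
      · simp [cp] at h1
      · exact hrr (Prod.mk.inj (Sum.inr.inj h1)).2
      · simp at h1
    have key : ∀ v : VV a b t, (FF c r)ᶜ.Reachable (Sum.inl c1) v := by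
      intro v
      rcases v with x | p
      · by_cases hx : x = c
        · rw [hx]
          exact (k1 c1 hcc (i0, r1)).reachable.trans k2.symm.reachable
        · exact (k1 c1 hcc (i0, r1)).reachable.trans (k1 x hx (i0, r1)).symm.reachable
      · exact (k1 c1 hcc p).reachable
    have : Nonempty (VV a b t) := ⟨Sum.inl c⟩
    exact ⟨fun u v => (key u).symm.trans (key v)⟩
  · intro I hI
    have hinj : Set.InjOn (cp : VV a b t → Option (Fin t)) (I : Set (VV a b t)) := by
      intro x hx y hy hxy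
      by_contra hne
      exact hI x hx y hy hne ⟨hne, Or.inl hxy⟩
    have := Finset.card_le_card_of_injOn (t := (Finset.univ : Finset (Option (Fin t)))) cp
      (fun x _ => Finset.mem_coe.2 (Finset.mem_univ _)) hinj
    simpa using this
  · intro i I hI
    classical
    have hI1 : ∀ x ∈ I, x ≠ Sum.inl c := fun x hx => (hI x hx).1
    have hI2 : ∀ x ∈ I, cn x = i := fun x hx => (hI x hx).2
    rcases i with _ | i
    · have hs : I ⊆ ((Finset.univ : Finset (Fin b)).erase c).image (fun x => Sum.inl x) := by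
        intro y hy
        have h1 := hI1 y hy
        have h2 := hI2 y hy
        rcases y with x | ⟨j, x⟩
        · refine Finset.mem_image.2 ⟨x, Finset.mem_erase.2 ⟨fun h => h1 (by rw [h]),
            Finset.mem_univ _⟩, rfl⟩
        · simp [cn] at h2
      have := (Finset.card_le_card hs).trans Finset.card_image_le
      rw [Finset.card_erase_of_mem (Finset.mem_univ _), Finset.card_univ, Fintype.card_fin] at this
      omega
    · by_cases hit : i < t
      · have hs : I ⊆ (Finset.univ : Finset (Fin a)).image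
            (fun x => Sum.inr ((⟨i, hit⟩ : Fin t), x)) := by
          intro y hy
          have h2 := hI2 y hy
          rcases y with x | ⟨j, x⟩
          · simp [cn] at h2
          · simp only [cn, Nat.add_right_cancel_iff] at h2
            have : j = ⟨i, hit⟩ := Fin.ext h2
            rw [this]
            exact Finset.mem_image.2 ⟨x, Finset.mem_univ _, rfl⟩
        have := (Finset.card_le_card hs).trans Finset.card_image_le
        rw [Finset.card_univ, Fintype.card_fin] at this
        exact this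
      · have hs : I = ∅ := by
          rw [Finset.eq_empty_iff_forall_notMem]
          intro y hy
          have h2 := hI2 y hy
          rcases y with x | ⟨j, x⟩
          · simp [cn] at h2
          · simp only [cn, Nat.add_right_cancel_iff] at h2
            exact hit (h2 ▸ j.2)
        rw [hs]
        simp
  · intro u v huv hu hv
    rcases huv.2 with h | ⟨h, _⟩ | ⟨h, _⟩
    · exact cn_of_cp h
    · exact absurd h hu
    · exact absurd h hv

end Pool.Agent.Helper39.CT
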