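import Pool.Agent.Helper96.CT.Stmts2

/-! # CT: the row KL -/

set_option autoImplicit false

namespace Pool.Agent.Helper39.CT

open SimpleGraph Pool.Agent.Helper96.CT

theorem st_KL : ST_KL := by
  classical
  intro W V _ T F K hT hW hK hcl h hh v hv hadj
  have hnt : Nontrivial W := Fintype.one_lt_card_iff_nontrivial.1 (by omega)
  obtain ⟨l, hl⟩ := hT.exists_vert_degree_one_of_nontrivial
  rw [degree_eq_one_iff_existsUnique_adj] at hl
  obtain ⟨p, hp, hpu⟩ := hl
  have hc : Fintype.card {w : W // w ≠ l} = Fintype.card K := by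
    rw [Fintype.card_coe, hK]
    have := Fintype.card_subtype_compl (fun w : W => w = l)
    rw [Fintype.card_subtype_eq] at this
    exact this
  obtain ⟨e, he⟩ : ∃ e : {w : W // w ≠ l} ≃ K, e ⟨p, hp.ne'⟩ = ⟨h, hh⟩ := by
    refine ⟨(Fintype.equivOfCardEq hc).trans
      (Equiv.swap ((Fintype.equivOfCardEq hc) ⟨p, hp.ne'⟩) ⟨h, hh⟩), ?_⟩
    rw [Equiv.trans_apply, Equiv.swap_apply_left]
  obtain ⟨f, hf⟩ : ∃ f : W → V, ∀ w, f w = if hw : w = l then v else (e ⟨w, hw⟩ : V) :=
    ⟨_, fun _ => rfl⟩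
  have hfl : f l = v := by rw [hf, dif_pos rfl]
  have hfn : ∀ (w : W) (hw : w ≠ l), f w = (e ⟨w, hw⟩ : V) := by
    intro w hw
    rw [hf, dif_neg hw]
  have hfp : f p = h := by
    rw [hfn p hp.ne', he]
  have hinj : Function.Injective f := by
    intro a b hab
    by_cases ha : a = l
    · by_cases hb : b = l
      · rw [ha, hb]
      · exfalso
        rw [ha, hfl, hfn b hb] at hab
        exact hv (hab ▸ (e ⟨b, hb⟩).2)
    · by_cases hb : b = l
      · exfalso
        rw [hb, hfl, hfn a ha] at hab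
        exact hv (hab ▸ (e ⟨a, ha⟩).2)
      · rw [hfn a ha, hfn b hb] at hab
        have := e.injective (Subtype.ext hab)
        exact congrArg Subtype.val this
  refine ⟨⟨⟨f, ?_⟩, hinj⟩⟩
  intro a b hab
  by_cases ha : a = l
  · rw [ha] at hab ⊢
    rw [hpu b hab, hfl, hfp]
    exact hadj.symm
  · by_cases hb : b = l
    · rw [hb] at hab ⊢
      rw [hpu a hab.symm, hfl, hfp]
      exact hadj
    · have hne : f a ≠ f b := fun h => hab.ne (hinj h)
      rw [hfn a ha, hfn b hb] at hne ⊢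
      exact hcl _ (e ⟨a, ha⟩).2 _ (e ⟨b, hb⟩).2 hne

end Pool.Agent.Helper39.CT
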