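import Pool.Agent.Helper39.CX.KNH7
import Pool.Agent.Helper90.CX.CT3
import Pool.Agent.Helper48.CT.NKT

/-!
Row NCT, near cells of the classes with tails: the statement about the test of a family of type A,
and all powers of the cycle at a wall.
-/

set_option autoImplicit false
noncomputable section
namespace Pool.Agent.Helper39.NFT

open Pool.Agent.Helper86.CX (Hm ev)
open Pool.Agent.Helper86.CT (Mo)
open Pool.Agent.Helper90.C75 (Vt)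
open Pool.Agent.Helper90.KMT (PT TOK KTab)
open Pool.Agent.Helper6.MONO (RMb omS kk lamS Kp SbP kapA tauA FNm nfm_TA TA)
open Pool.Agent.Helper21.SUP (GS gM DG)
open Pool.Agent.Helper21.SUP renaming nx → nxs
open Pool.Agent.Helper39.SLT (fam_A)
open Pool.Agent.Helper42.CH (powA)
open Pool.Agent.Helper39.KNF (WallC FamI one_SbP wall_kap ev_smul_c bs bs_om bs_DG)
open Pool.Agent.Helper48.NCT (FTT)
open Complex ComplexConjugate

/-! ### arbitrary forms -/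

/-- from the inequality of the family to the cone condition -/
theorem famI_posH {X E : Hm ℝ} {k k' : ℝ} {o o' A : ℂ}
    (ho : o ≠ 0) (ho' : o' ≠ 0) (hs0 : (1 + (SbP k : ℂ)) ≠ 0) (hs0' : (1 + (SbP k' : ℂ)) ≠ 0)
    (h : FamI X E (SbP k) (SbP k') o⁻¹ o'⁻¹ o A) {v : Fin 3 → ℂ} (hv : 0 < ev E v) :
    0 < ev X ((TA k k' o o' A).mulVec v) := by
  obtain ⟨l, hl, h2⟩ := h
  have h3 := h2 v
  rw [← nfm_TA ho ho' hs0 hs0', Matrix.smul_mulVec, ev_smul_c] at h3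
  have h4 : 0 < Complex.normSq (2 * ((1 + (SbP k : ℂ)) * (1 + (SbP k' : ℂ)))) *
      ev X ((TA k k' o o' A).mulVec v) := lt_of_lt_of_le (mul_pos hl hv) h3
  have h5 := Complex.normSq_nonneg (2 * ((1 + (SbP k : ℂ)) * (1 + (SbP k' : ℂ))))
  by_contra h0
  push Not at h0
  nlinarith [mul_nonneg h5 (neg_nonneg.2 h0)]

/-- ALL POWERS OF THE A CYCLE AT A STATE, from the family inequalities, arbitrary forms -/
theorem famA_stateH {p q r : ℕ} (hp : 3 ≤ p) (hq : 3 ≤ q) (hr : 3 ≤ r) {s : GS} (hs : DG s)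
    {w : ℂ} {k k' c x0 : ℝ} (ek : kk p q r s.1 s.2.1 = k)
    (ek' : kk p q r s.1 s.2.2 = k') (hc : WallC k k' c x0) {x z : ℂ} (hz : z ≠ 0)
    (hzx : z + z⁻¹ = x) (hre : x.re = x0) (him : 0 ≤ x.im)
    (hg : (omS p q r s w)⁻¹ = 2 * (1 + ((2 * c / (k * k') : ℝ) : ℂ) * z⁻¹))
    (hg' : (omS p q r (nxs s 3) w)⁻¹ = 2 * (1 + ((2 * c / (k * k') : ℝ) : ℂ) * z))
    (ho : omS p q r s w ≠ 0) (ho' : omS p q r (nxs s 3) w ≠ 0) {X E : Hm ℝ}
    (hF : ∀ i, FamI X E (SbP k) (SbP k') (omS p q r s w)⁻¹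
      (omS p q r (nxs s 3) w)⁻¹ (omS p q r s w)
      (powA (tauA k k' (omS p q r s w) (omS p q r (nxs s 3) w)) i)) :
    ∀ n : ℕ, ∀ v, 0 < ev E v →
      0 < ev X ((gM (RMb p q r) s (List.replicate 2 3) w ^ (n + 1)).mulVec v) := by
  subst ek
  subst ek'
  obtain ⟨k1, k2⟩ := wall_kap hc hz hzx hre him ho ho' hg hg'
  have hs0 : (1 + (SbP (kk p q r s.1 s.2.1) : ℂ)) ≠ 0 := by
    rw [one_SbP hc.hk.ne']
    have := hc.hk
    exact Complex.ofReal_ne_zero.2 (by positivity)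
  have hs0' : (1 + (SbP (kk p q r s.1 s.2.2) : ℂ)) ≠ 0 := by
    rw [one_SbP hc.hk'.ne']
    have := hc.hk'
    exact Complex.ofReal_ne_zero.2 (by positivity)
  refine fam_A hp hq hr hs ho ho' k1 (J := 0)
    (fun _ => {A | FamI X E (SbP (kk p q r s.1 s.2.1))
      (SbP (kk p q r s.1 s.2.2)) (omS p q r s w)⁻¹
      (omS p q r (nxs s 3) w)⁻¹ (omS p q r s w) A}) (fun m => hF m)
    (E := {v | 0 < ev E v}) (X := {v | 0 < ev X v}) ?_ ?_
  · intro c v hc0 hv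
    show 0 < ev _ _
    rw [ev_smul_c]
    exact mul_pos (Complex.normSq_pos.2 hc0) hv
  · intro i _ A hA v hv
    exact famI_posH ho ho' hs0 hs0' hA hv

/-! ### the statement about the test of a family -/


/-- SOUNDNESS of the test of the family of a wall: `kx`, `ke` = numbers of the forms, `SD` = side
condition of the data -/
def FamOKT {α β δ : Type} (D : ℕ) (lf : α → Vt D → ℂ) (mf : (ℕ → ℝ) → β → (ℕ → ℝ) → ℝ)
    (F : FTT α β δ) (kx ke : δ → ℕ) (SD : δ → Prop) : Prop :=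
  ∀ {t : ℕ → ℝ}, PT D t → ∀ {k k' c x0 : ℝ}, WallC k k' c x0 → ∀ {x z : ℂ}, z ≠ 0 →
    z + z⁻¹ = x → x.re = x0 → 0 ≤ x.im → ∀ {K K' L U Zm : Mo α}, TOK D lf t (k : ℂ) K →
    TOK D lf t (k' : ℂ) K' → TOK D lf t ((2 * c / (k * k') : ℝ) : ℂ) L →
    TOK D lf t z⁻¹ U → TOK D lf t z Zm → ∀ {KT : β} {d : δ},
    F KT d L K K' U Zm = true → SD d → ∀ {o o' : ℂ},
    o⁻¹ = 2 * (1 + ((2 * c / (k * k') : ℝ) : ℂ) * z⁻¹) →
    o'⁻¹ = 2 * (1 + ((2 * c / (k * k') : ℝ) : ℂ) * z) → o ≠ 0 → o' ≠ 0 → ∀ i : ℕ,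
    FamI (KTab mf KT (kx d) t) (KTab mf KT (ke d) t) (SbP k) (SbP k') o⁻¹ o'⁻¹ o
      (powA (tauA k k' o o') i)

/-- one wall at a point -/
theorem wall_FT {α β δ : Type} {D : ℕ} {lf : α → Vt D → ℂ}
    {mf : (ℕ → ℝ) → β → (ℕ → ℝ) → ℝ} {F : FTT α β δ} {kx ke : δ → ℕ} {SD : δ → Prop}
    (hF : FamOKT D lf mf F kx ke SD) {p q r : ℕ} (hp : 3 ≤ p) (hq : 3 ≤ q) (hr : 3 ≤ r)
    {w : ℂ} (h1w : 1 + w ≠ 0) (h2w : 1 - w ≠ 0) (hom : ∀ s, DG s → omS p q r s w ≠ 0) {x z : ℂ}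
    (hzw : z = (1 + w) / (1 - w)) (hz : z ≠ 0) (hzx : z + z⁻¹ = x) {x0 : ℝ} (hre : x.re = x0)
    (him : 0 ≤ x.im) {t : ℕ → ℝ} (ht : PT D t) {n : Fin 3}
    {k k' c : ℝ} (ek : kk p q r (bs n).1 (bs n).2.1 = k) (ek' : kk p q r (bs n).1 (bs n).2.2 = k')
    (el : lamS p q r (bs n) = 2 * c / (k * k'))
    (hc : WallC k k' c x0) {K K' L U Zm : Mo α}
    (hK : TOK D lf t (k : ℂ) K) (hK' : TOK D lf t (k' : ℂ) K')
    (hL : TOK D lf t ((2 * c / (k * k') : ℝ) : ℂ) L)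
    (hU : TOK D lf t z⁻¹ U) (hZ : TOK D lf t z Zm) {KT : β}
    {d : δ} (h : F KT d L K K' U Zm = true) (hA : SD d) :
    ∀ m : ℕ, ∀ v, 0 < ev (KTab mf KT (ke d) t) v →
      0 < ev (KTab mf KT (kx d) t)
        ((gM (RMb p q r) (bs n) (List.replicate 2 3) w ^ (m + 1)).mulVec v) := by
  obtain ⟨g1, g2⟩ := bs_om (p := p) (q := q) (r := r) h1w h2w n
  rw [← hzw, el] at g1 g2
  have o1 := hom _ (bs_DG n)
  have o2 := hom _ (Pool.Agent.Helper21.SUP.DG_nx (bs n) 3 (bs_DG n))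
  exact famA_stateH hp hq hr (bs_DG n) ek ek' hc hz hzx hre him g1 g2 o1 o2
    (hF ht hc hz hzx hre him hK hK' hL hU hZ h hA g1 g2 o1 o2)

end Pool.Agent.Helper39.NFT
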