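import Pool.Agent.Helper39.CT.NFA
import Pool.Agent.Helper39.CX.NCM
import Pool.Agent.Helper21.CT.KRS

/-!
Row NCT, near cells of the classes with tails: the families of the three walls at a point.
-/

set_option autoImplicit false
noncomputable section
namespace Pool.Agent.Helper39.NFT

open Pool.Agent.Helper86.CX (Hm ev)
open Pool.Agent.Helper86.CT (Mo Cls)
open Pool.Agent.Helper90.C75 (Vt)
open Pool.Agent.Helper90.KMT (PT TOK KTab CLT)
open Pool.Agent.Helper6.MONO (RMb omS kk lamS Kp xA xA_swap zw)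
open Pool.Agent.Helper6.MID
open Pool.Agent.Helper6.PRG
open Pool.Agent.Helper6.PIE (z_ne)
open Pool.Agent.Helper21.SUP (GS gM DG)
open Pool.Agent.Helper39.KNF (wallC_of)
open Pool.Agent.Helper39.NCL (WN wS zw_ne)
open Pool.Agent.Helper48.NCT (FTT fam3T)
open Pool.Agent.Helper21.KRN (cκ NZ)
open Complex ComplexConjugate

theorem nz_ne {κ : Fin 3 → ℂ} {z : ℂ} (h : NZ κ z) (i : ℕ) : oZ κ z i ≠ 0 := by
  match i with
  | 0 => exact inv_ne_zero h.n0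
  | 1 => exact inv_ne_zero h.n1
  | 2 => exact inv_ne_zero h.n2
  | 3 => exact inv_ne_zero h.n3
  | 4 => exact inv_ne_zero h.n4
  | (_ + 5) => exact inv_ne_zero h.n5

theorem imB_ifT {f b : Bool} (h : Pool.Agent.Helper48.NCT.imB f b = true) (hf : f = true) :
    b = true := by
  subst hf
  exact h

/-- side condition of a wall: numbers of the forms, condition of the data -/
def SdW {δ : Type} (kx ke : δ → ℕ) (SD : δ → Prop) (W : WN) (d : δ) : Prop :=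
  W.f = true → ke d = W.e ∧ kx d = W.x ∧ SD d

/-- THE FAMILIES OF THE THREE WALLS AT A POINT -/
theorem fam_ptT {α β δ : Type} {D : ℕ} {lf : α → Vt D → ℂ}
    {mf : (ℕ → ℝ) → β → (ℕ → ℝ) → ℝ} {F : FTT α β δ} {kx ke : δ → ℕ} {SD : δ → Prop}
    (hF : FamOKT D lf mf F kx ke SD) {p q r : ℕ} (hp : 3 ≤ p) (hq : 3 ≤ q) (hr : 3 ≤ r)
    {x0 : ℝ} (x1 : -2 < x0) (t1 : xA p q r ≤ x0) (t2 : xA q r p ≤ x0) (t3 : xA r p q ≤ x0)
    {t : ℕ → ℝ} (ht : PT D t) {z : ℂ} {y : ℝ} (hy : 0 ≤ y) (hz : z ≠ 0)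
    (hzx : z + z⁻¹ = (x0 : ℂ) + (y : ℂ) * I) (hN : NZ (kap3 p q r) z) {k0 k1 k2 : Mo α}
    (a0 : TOK D lf t (Kp p : ℂ) k0) (a1 : TOK D lf t (Kp q : ℂ) k1)
    (a2 : TOK D lf t (Kp r : ℂ) k2) {C : Cls α} (hC : CLT D lf t (kap3 p q r) C)
    {U Zm : Mo α} (hU : TOK D lf t z⁻¹ U) (hZ : TOK D lf t z Zm) {W0 W1 W2 : WN} {KT : β}
    {D0 D1 D2 : δ} (s0 : SdW kx ke SD W0 D0) (s1 : SdW kx ke SD W1 D1) (s2 : SdW kx ke SD W2 D2)
    (H : fam3T F W0.f W1.f W2.f k0 k1 k2 C KT D0 D1 D2 U Zm = true) :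
    ∀ s, DG s → giS s < 3 → (wS W0 W1 W2 (giS s)).f = true → ∀ m : ℕ, ∀ v,
      0 < ev (KTab mf KT (wS W0 W1 W2 (giS s)).e t) v →
        0 < ev (KTab mf KT (wS W0 W1 W2 (giS s)).x t)
        ((gM (RMb p q r) s (List.replicate 2 3) (zw z) ^ (m + 1)).mulVec v) := by
  have hz1 := z_ne x1 hzx
  obtain ⟨hw1, hw2, hzw⟩ := zw_ne hz hz1
  have hom : ∀ s, DG s → omS p q r s (zw z) ≠ 0 := by
    intro s h
    rw [oZ_omS hz hz1 s h]
    exact nz_ne hN _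
  have hre : ((x0 : ℂ) + (y : ℂ) * I).re = x0 := by simp
  have him : 0 ≤ ((x0 : ℂ) + (y : ℂ) * I).im := by simpa using hy
  have f : ∀ a b c : ℝ, (2 * (c : ℂ) / ((a : ℂ) * (b : ℂ))) = ((2 * c / (a * b) : ℝ) : ℂ) := by
    intro a b c
    push_cast
    rfl
  have e0 : kap3 p q r 0 = Kp p := rfl
  have e1 : kap3 p q r 1 = Kp q := rfl
  have e2 : kap3 p q r 2 = Kp r := rfl
  have l0 := hC.l0
  have l1 := hC.l1
  have l2 := hC.l2
  rw [e0, e1, e2, f] at l0 l1 l2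
  have H' : (Pool.Agent.Helper86.CX.andB (Pool.Agent.Helper48.NCT.imB W0.f (F KT D0 C.l0 k0 k2 U Zm))
      (Pool.Agent.Helper86.CX.andB (Pool.Agent.Helper48.NCT.imB W1.f (F KT D1 C.l1 k1 k0 U Zm))
    (Pool.Agent.Helper48.NCT.imB W2.f (F KT D2 C.l2 k2 k1 U Zm)))) = true := H
  obtain ⟨c0, H⟩ := Pool.Agent.Helper21.KCE.andB_tt H'
  obtain ⟨c1, c2⟩ := Pool.Agent.Helper21.KCE.andB_tt H
  refine DG_cases ?_ ?_ ?_ ?_ ?_ ?_
  · intro _ hf
    have hf' : W0.f = true := hf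
    obtain ⟨n1, n2, n3⟩ := s0 hf'
    have h := wall_FT hF hp hq hr hw1 hw2 hom hzw hz hzx hre him ht (n := 0) rfl
      rfl rfl (wallC_of hp hr hq (by rw [xA_swap]; exact t3)) a0 a2 l0 hU hZ
      (imB_ifT c0 hf') n3
    rw [n1, n2] at h
    exact h
  · intro _ hf
    have hf' : W1.f = true := hf
    obtain ⟨n1, n2, n3⟩ := s1 hf'
    have h := wall_FT hF hp hq hr hw1 hw2 hom hzw hz hzx hre him ht (n := 1) rfl
      rfl rfl (wallC_of hq hp hr (by rw [xA_swap]; exact t1)) a1 a0 l1 hU hZ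
      (imB_ifT c1 hf') n3
    rw [n1, n2] at h
    exact h
  · intro _ hf
    have hf' : W2.f = true := hf
    obtain ⟨n1, n2, n3⟩ := s2 hf'
    have h := wall_FT hF hp hq hr hw1 hw2 hom hzw hz hzx hre him ht (n := 2) rfl
      rfl rfl (wallC_of hr hq hp (by rw [xA_swap]; exact t2)) a2 a1 l2 hU hZ
      (imB_ifT c2 hf') n3
    rw [n1, n2] at h
    exact h
  · intro h3
    exact absurd h3 (by decide)
  · intro h3
    exact absurd h3 (by decide)
  · intro h3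
    exact absurd h3 (by decide)

end Pool.Agent.Helper39.NFT
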