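import Pool.Agent.Helper39.CT.NFB
import Pool.Agent.Helper48.CT.NCT
import Pool.Agent.Helper81.MIT.Crt
import Pool.Agent.Helper21.CT.KRP

/-!
Row NCT, near cells of the classes with tails: from the results of the tests at a point to the
certificate of the point.
-/

set_option autoImplicit false
set_option exponentiation.threshold 4000
noncomputable section
namespace Pool.Agent.Helper39.NFT

open Pool.Agent.Helper81.MIT
open Pool.Agent.Helper86.CX (Hm ev)
open Pool.Agent.Helper86.CT (LT2)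
open Pool.Agent.Helper6.MONO (V3 RV2 TCert kk mm RMb zw Kp LNI_mm DTH)
open Pool.Agent.Helper6.MONO.QTR (V0 e0)
open Pool.Agent.Helper21.SUP (GS DG gM)
open Pool.Agent.Helper39.SLT (T4 ML)
open Pool.Agent.Helper6.PRG (giS tN)
open Pool.Agent.Helper6.MTC (FCert RK NegD)
open Pool.Agent.Helper39.NCL (WN wS)
open Pool.Agent.Helper21.KRN (TProg KResT PtR SlK SlK_E SlK_T slT)
open Pool.Agent.Helper48.NCT (IT NearC coverNT coverFT nearC_of hB_of_F)
open Complex ComplexConjugate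

variable {p q r : ℕ}

/-! ### the slit -/

theorem slT_of {lo hi ta tb : ℕ} (h : tOK (Lb.tl lo hi) ta tb = true) : slT lo hi ta tb = true := by
  unfold tOK at h
  simp only [Bool.and_eq_true, decide_eq_true_eq] at h
  obtain ⟨h1, h2, h3⟩ := h
  have g0 : 0 < lo * lo := by
    by_contra h0
    have h0' : lo * lo = 0 := by omega
    rw [h0'] at h1
    norm_num at h1
  have g1 : 1 ≤ lo := by
    rcases Nat.eq_zero_or_pos lo with e | e
    · rw [e] at g0
      exact absurd g0 (by norm_num)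
    · exact e
  have g2 : ta ≤ 2 ^ 48 := by
    by_contra h0
    push Not at h0
    have : 2 ^ 48 * (lo * lo) ≤ ta * (lo * lo) := Nat.mul_le_mul_right _ h0.le
    omega
  unfold slT
  simp only [Bool.and_eq_true]
  refine ⟨⟨⟨⟨Nat.ble_eq_true_of_le g1, Nat.ble_eq_true_of_le g2⟩, Nat.ble_eq_true_of_le h3⟩,
    Nat.ble_eq_true_of_le ?_⟩, Nat.ble_eq_true_of_le ?_⟩
  · rw [Nat.sub_mul]
    omega
  · rw [Nat.sub_mul]
    omega

/-- the enclosure of the label of a star -/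
theorem slK_of {B : Lb} {M : ℕ} (h : B.has M) {ta tb : ℕ} (ht : tOK B ta tb = true) :
    SlK (Kp M) ta tb := by
  cases B with
  | ex N =>
    obtain ⟨rfl, h3, h9⟩ := h
    unfold tOK at ht
    rw [Bool.and_eq_true, beq_iff_eq, beq_iff_eq] at ht
    rw [ht.1, ht.2]
    exact SlK_E h3 h9
  | tl lo hi => exact SlK_T (slT_of ht) h.2.1 h.2.2

theorem slitT_of {K : ℕ → Hm ℝ} {z : ℂ} {G : TProg} {sl : List ℕ} {le : List LT2} {a b c : Lb}
    (ha : a.has p) (hb : b.has q) (hc : c.has r) (hP : PtR K (kR p q r) z G sl le) :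
    SlitT p q r a b c K le := by
  intro x hx i j hij ht
  refine hP.slit x hx _ ?_
  have s20 : kk p q r 0 2 = kk p q r 2 0 := Pool.Agent.Helper6.MONO.LNI_kk_symm p q r 0 2
  have s10 : kk p q r 1 0 = kk p q r 0 1 := Pool.Agent.Helper6.MONO.LNI_kk_symm p q r 1 0
  have s21 : kk p q r 2 1 = kk p q r 1 2 := Pool.Agent.Helper6.MONO.LNI_kk_symm p q r 2 1
  have e0 : kk p q r 0 1 = Kp p := rfl
  have e1 : kk p q r 1 2 = Kp q := rfl
  have e2 : kk p q r 2 0 = Kp r := rfl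
  fin_cases i <;> fin_cases j
  · exact absurd rfl hij
  · exact slK_of ha ht
  · change SlK (kk p q r 0 2) _ _
    rw [s20]
    exact slK_of hc ht
  · change SlK (kk p q r 1 0) _ _
    rw [s10]
    exact slK_of ha ht
  · exact absurd rfl hij
  · exact slK_of hb ht
  · exact slK_of hc ht
  · change SlK (kk p q r 2 1) _ _
    rw [s21]
    exact slK_of hb ht
  · exact absurd rfl hij

/-! ### the certificate -/

/-- the bound of the certificates -/
def CBT : ℝ := 5 * 2 ^ 12 / (1 / 2 ^ 10) + 1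

/-- the data of a module of near cells cover everything: labels `a b c` -/
def modNT (a b c : Lb) (gb : Bool) (W0 W1 W2 : WN) (BE BO : List ℕ) (G : TProg) (il : List IT)
    (fn : ℕ → ℕ) (sl : List ℕ) (le : List LT2) : Bool :=
  coverNT a.rp b.rp c.rp gb W0 W1 W2 BE BO G il && (covRTs a.rp b.rp c.rp G &&
    (coverLT a.rp b.rp c.rp G && (covTT a.rp b.rp c.rp sl && (covLT a b c le &&
      (!gb || coverFT a.rp b.rp c.rp BE BO G il fn)))))

/-- the part of `modNT` without the runs of two letters through extra forms -/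
def modN0 (a b c : Lb) (gb : Bool) (W0 W1 W2 : WN) (BE BO : List ℕ) (G : TProg) (il : List IT)
    (sl : List ℕ) (le : List LT2) : Bool :=
  coverNT a.rp b.rp c.rp gb W0 W1 W2 BE BO G il && (covRTs a.rp b.rp c.rp G &&
    (coverLT a.rp b.rp c.rp G && (covTT a.rp b.rp c.rp sl && covLT a b c le)))

/-- the runs of two letters, all powers -/
def HB (p q r : ℕ) (z : ℂ) (K : ℕ → Hm ℝ) : Prop :=
  ∀ s, DG s → ∀ T : T4, T.ok (ML p q r s) → T.low (ML p q r s) ≤ 2 →
    T ≠ T4.two → ∀ k : ℕ, ∀ v, 0 < ev (K (kidxT p q r s T)) v →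
      0 < ev (K (kidxT p q r (Pool.Agent.Helper6.MONO.sD s (List.replicate (k + 1) 2)) T4.two))
        ((gM (RMb p q r) s (List.replicate (k + 1) 2) (zw z)).mulVec v)

/-- THE CERTIFICATE AT A POINT OF A NEAR CELL, families of type B given -/
theorem near_certB (hp : 3 ≤ p) (hq : 3 ≤ q) (hr : 3 ≤ r) {a b c : Lb} (ha : a.has p)
    (hb : b.has q) (hc : c.has r) {z : ℂ} (hz : z ≠ 0) (hz1 : z + 1 ≠ 0) {K : ℕ → Hm ℝ}
    {G : TProg} {sl : List ℕ} {le : List LT2} (hP : PtR K (kR p q r) z G sl le) {gb : Bool}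
    {W0 W1 W2 : WN} {BE BO : List ℕ} {il : List IT}
    (hm : modN0 a b c gb W0 W1 W2 BE BO G il sl le = true)
    (hI : ∀ x ∈ il, ∀ y ∈ x.s, ∀ v, 0 < ev (K y.k) v → 0 < ev (K x.k) v)
    (hfam : ∀ s, DG s → giS s < 3 → (wS W0 W1 W2 (giS s)).f = true → ∀ m : ℕ, ∀ v,
      0 < ev (K (wS W0 W1 W2 (giS s)).e) v → 0 < ev (K (wS W0 W1 W2 (giS s)).x)
        ((gM (RMb p q r) s (List.replicate 2 3) (zw z) ^ (m + 1)).mulVec v))
    (hB : gb = true → HB p q r z K) :
    TCert V0 e0 p q r CBT (zw z) (RK fun s T => K (kidxT p q r s T)) := by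
  unfold modN0 at hm
  rw [lb_rp ha, lb_rp hb, lb_rp hc] at hm
  simp only [Bool.and_eq_true] at hm
  obtain ⟨m1, m2, m3, m4, m5⟩ := hm
  have hF := fcert_ofT hp hq hr ha hb hc hz hz1 hP.res m2 (κ := 1 / 2 ^ 10) (M := 2 ^ 12) m4
    hP.neg hP.bd (lposT_of hz hz1 m3 hP.res) m5 (slitT_of ha hb hc hP)
  exact NearC.tcert hp hq hr (by positivity) hF
    (nearC_of hp hq hr hz hz1 hP.res m1 hI hfam hB)

/-- THE CERTIFICATE AT A POINT OF A NEAR CELL -/
theorem near_cert (hp : 3 ≤ p) (hq : 3 ≤ q) (hr : 3 ≤ r) {a b c : Lb} (ha : a.has p)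
    (hb : b.has q) (hc : c.has r) {z : ℂ} (hz : z ≠ 0) (hz1 : z + 1 ≠ 0) {K : ℕ → Hm ℝ}
    {G : TProg} {sl : List ℕ} {le : List LT2} (hP : PtR K (kR p q r) z G sl le) {gb : Bool}
    {W0 W1 W2 : WN} {BE BO : List ℕ} {il : List IT} {fn : ℕ → ℕ}
    (hm : modNT a b c gb W0 W1 W2 BE BO G il fn sl le = true)
    (hI : ∀ x ∈ il, ∀ y ∈ x.s, ∀ v, 0 < ev (K y.k) v → 0 < ev (K x.k) v)
    (hfam : ∀ s, DG s → giS s < 3 → (wS W0 W1 W2 (giS s)).f = true → ∀ m : ℕ, ∀ v,
      0 < ev (K (wS W0 W1 W2 (giS s)).e) v → 0 < ev (K (wS W0 W1 W2 (giS s)).x)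
        ((gM (RMb p q r) s (List.replicate 2 3) (zw z) ^ (m + 1)).mulVec v)) :
    TCert V0 e0 p q r CBT (zw z) (RK fun s T => K (kidxT p q r s T)) := by
  unfold modNT at hm
  rw [lb_rp ha, lb_rp hb, lb_rp hc] at hm
  simp only [Bool.and_eq_true, Bool.or_eq_true, Bool.not_eq_true'] at hm
  obtain ⟨m1, m2, m3, m4, m5, m6⟩ := hm
  have hbr : brOK BE BO = true := by
    unfold coverNT at m1
    rw [Bool.and_eq_true] at m1
    exact m1.1
  have hF := fcert_ofT hp hq hr ha hb hc hz hz1 hP.res m2 (κ := 1 / 2 ^ 10) (M := 2 ^ 12) m4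
    hP.neg hP.bd (lposT_of hz hz1 m3 hP.res) m5 (slitT_of ha hb hc hP)
  refine NearC.tcert hp hq hr (by positivity) hF
    (nearC_of hp hq hr hz hz1 hP.res m1 hI hfam ?_)
  intro hg
  rcases m6 with m6 | m6
  · rw [hg] at m6
    exact absurd m6 (by decide)
  · exact hB_of_F hp hq hr hz hz1 hP.res hbr m6 hI

end Pool.Agent.Helper39.NFT
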