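import Pool.Agent.Helper39.CT.NFC
import Pool.Agent.Helper48.CT.NKI
import Pool.Agent.Helper57.KNB.KT4

/-!
Row NCT, near cells of the classes with tails: from the kernel tests of a near cell to the cell of
the quarter; chains of cells.
-/

set_option autoImplicit false
set_option exponentiation.threshold 4000
noncomputable section
namespace Pool.Agent.Helper39.NFT

open Pool.Agent.Helper81.MIT
open Pool.Agent.Helper86.CX (Hm P9 VR ev Cx andB)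
open Pool.Agent.Helper86.CT (LT2 Mo Mc Sv Vx Cls Prog CellT chkDT mk addM uM zM Alg)
open Pool.Agent.Helper90.C75 (Vt)
open Pool.Agent.Helper90.KMT (PT TOK KTab CLT)
open Pool.Agent.Helper17.KPT (MK)
open Pool.Agent.Helper6.MONO (V3 RV2 TCert kk mm RMb zw Kp xA)
open Pool.Agent.Helper6.MONO.QTR (V0 e0 TCell tcell_of_z)
open Pool.Agent.Helper6.MID
open Pool.Agent.Helper6.PIE (z_ne)
open Pool.Agent.Helper21.KCE (andB_tt)
open Pool.Agent.Helper39.NCL (WN wS NA)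
open Pool.Agent.Helper39.KNF (AD)
open Pool.Agent.Helper21.KRN (TProg PtR cκ NZ)
open Pool.Agent.Helper48.NCT (IT FTT NDT chkNT chkPNT pcNT chkIT chkIT_pos ON fam3T)
open Pool.Agent.Helper57.KNB (FDT FamTOK PowOK powC powC_ok)
open Complex ComplexConjugate

variable {p q r : ℕ}

/-! ### one cell -/

section

variable {α β P v γ δ : Type} {D : ℕ} {lC : α → Vt D → Cx} {lf : α → Vt D → ℂ}
  {mf : (ℕ → ℝ) → β → (ℕ → ℝ) → ℝ} {lp : P → Vt D → P9} {lv : v → Vt D → VR}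
  {lg : γ → Vt D → ℕ} {Sp : P → List Bool → Prop} {Sv' : v → List Bool → Prop}
  {Sg : γ → List Bool → Prop} {M : Mc α β P v γ}

/-- everything which the tests of a cell give at its points; `x` = model of the variable `x` -/
structure CPt (D : ℕ) (lf : α → Vt D → ℂ) (mf : (ℕ → ℝ) → β → (ℕ → ℝ) → ℝ) (A : Alg α)
    (p q r : ℕ) (G : TProg) (sl : List ℕ) (le : List LT2) (k0 k1 k2 : Mo α) (C : Cls α)
    (x : Mo α) (d : CellT α β) (z : ℂ) (t : ℕ → ℝ) : Prop where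
  pt : PT D t
  P : PtR (fun k => KTab mf d.K k t) (kR p q r) z G sl le
  a0 : TOK D lf t (Kp p : ℂ) k0
  a1 : TOK D lf t (Kp q : ℂ) k1
  a2 : TOK D lf t (Kp r : ℂ) k2
  C : CLT D lf t (kap3 p q r) C
  u : TOK D lf t z⁻¹ (uM A d.m x (mk A d.u (nat_lit 0)) (mk A (A.sub x.v d.u) (nat_lit 0)))
  z : TOK D lf t z (zM x (uM A d.m x (mk A d.u (nat_lit 0)) (mk A (A.sub x.v d.u) (nat_lit 0)))
    (mk A (A.sub x.v d.u) (nat_lit 0)))

/-- at all points of the cell -/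
def CAll (D : ℕ) (lf : α → Vt D → ℂ) (mf : (ℕ → ℝ) → β → (ℕ → ℝ) → ℝ) (A : Alg α)
    (p q r : ℕ) (x0 : ℝ) (G : TProg) (sl : List ℕ) (le : List LT2) (k0 k1 k2 : Mo α) (C : Cls α)
    (x : Mo α) (d : CellT α β) : Prop :=
  ∀ {z : ℂ} {y : ℝ}, 0 ≤ y → (d.ya : ℝ) / 2 ^ 48 ≤ y → y ≤ (d.yb : ℝ) / 2 ^ 48 → z ≠ 0 →
    (z⁻¹).im ≤ 0 → z + z⁻¹ = (x0 : ℂ) + (y : ℂ) * I →
    ∃ t, CPt D lf mf A p q r G sl le k0 k1 k2 C x d z t

/-- A NEAR CELL -/
theorem cell_NT (hM : MK D lC lf mf lp lv lg Sp Sv' Sg M)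
    (hn : ∀ (f : ℕ → ℝ) (T : β) (t : ℕ → ℝ), PT D t → (∀ x, 0 ≤ f x) → 0 ≤ mf f T t)
    {ONE : β} (h1 : ON mf ONE) {F : FTT α β δ} {kx ke : δ → ℕ} {SD : δ → Prop}
    (hF : FamOKT D lf mf F kx ke SD) (hp : 3 ≤ p) (hq : 3 ≤ q) (hr : 3 ≤ r) {a b c : Lb}
    (ha : a.has p) (hb : b.has q) (hc : c.has r) {x0 : ℝ} (x1 : -2 < x0) (x2 : x0 ≤ 2)
    (t1 : xA p q r ≤ x0) (t2 : xA q r p ≤ x0) (t3 : xA r p q ≤ x0) {gb : Bool}
    {W0 W1 W2 : WN} {BE BO : List ℕ} {G : TProg} {il : List IT} {fn : ℕ → ℕ} {sl : List ℕ}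
    {le : List LT2} (hm : modNT a b c gb W0 W1 W2 BE BO G il fn sl le = true)
    {S : Sv P} {W : Vx β} {y : ℕ → ℕ → α} {k0 k1 k2 : Mo α} {C : Cls α} {Ge : Prog v}
    {X : Mo α} {d : NDT α β δ} (s0 : SdW kx ke SD W0 d.D0) (s1 : SdW kx ke SD W1 d.D1)
    (s2 : SdW kx ke SD W2 d.D2)
    (H : chkNT M S W y F W0.f W1.f W2.f k0 k1 k2 C Ge X sl le ONE il d = true)
    (hD : chkDT M S W y C Ge X sl le d.c = true → CAll D lf mf M.A p q r x0 G sl le k0 k1 k2 C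
      (addM M.A X (mk M.A (y d.c.ya d.c.yb) (nat_lit 0))) d.c) :
    TCell p q r x0 ((d.c.ya : ℝ) / 2 ^ 48) ((d.c.yb : ℝ) / 2 ^ 48) := by
  obtain ⟨H1, H⟩ := andB_tt H
  obtain ⟨H2, H3⟩ := andB_tt H
  refine tcell_of_z x1 x2 CBT ?_
  intro z y hy0 hya hyb hz _ _ hui hzx
  obtain ⟨t, h⟩ := hD H1 hy0 hya hyb hz hui hzx
  have hI := chkIT_pos hM hn h1 H2 h.pt
  have hz1 := z_ne x1 hzx
  have hN : NZ (kap3 p q r) z := by
    have h2 := h.P.nz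
    rwa [cκ_kR] at h2
  have hfam := fam_ptT hF hp hq hr x1 t1 t2 t3 h.pt hy0 hz hzx hN h.a0 h.a1 h.a2 h.C h.u h.z s0 s1 s2
    H3
  exact ⟨_, near_cert hp hq hr ha hb hc hz hz1 h.P hm hI hfam⟩

/-- A NEAR CELL, families of type B given -/
theorem cell_NTB (hM : MK D lC lf mf lp lv lg Sp Sv' Sg M)
    (hn : ∀ (f : ℕ → ℝ) (T : β) (t : ℕ → ℝ), PT D t → (∀ x, 0 ≤ f x) → 0 ≤ mf f T t)
    {ONE : β} (h1 : ON mf ONE) {F : FTT α β δ} {kx ke : δ → ℕ} {SD : δ → Prop}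
    (hF : FamOKT D lf mf F kx ke SD) (hp : 3 ≤ p) (hq : 3 ≤ q) (hr : 3 ≤ r) {a b c : Lb}
    (ha : a.has p) (hb : b.has q) (hc : c.has r) {x0 : ℝ} (x1 : -2 < x0) (x2 : x0 ≤ 2)
    (t1 : xA p q r ≤ x0) (t2 : xA q r p ≤ x0) (t3 : xA r p q ≤ x0) {gb : Bool}
    {W0 W1 W2 : WN} {BE BO : List ℕ} {G : TProg} {il : List IT} {sl : List ℕ}
    {le : List LT2} (hm : modN0 a b c gb W0 W1 W2 BE BO G il sl le = true)
    {S : Sv P} {W : Vx β} {y : ℕ → ℕ → α} {k0 k1 k2 : Mo α} {C : Cls α} {Ge : Prog v}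
    {X : Mo α} {d : NDT α β δ} (s0 : SdW kx ke SD W0 d.D0) (s1 : SdW kx ke SD W1 d.D1)
    (s2 : SdW kx ke SD W2 d.D2)
    (H : chkNT M S W y F W0.f W1.f W2.f k0 k1 k2 C Ge X sl le ONE il d = true)
    (hD : chkDT M S W y C Ge X sl le d.c = true → CAll D lf mf M.A p q r x0 G sl le k0 k1 k2 C
      (addM M.A X (mk M.A (y d.c.ya d.c.yb) (nat_lit 0))) d.c)
    (hB : gb = true → ∀ {z : ℂ} {h : ℝ} {t : ℕ → ℝ}, 0 ≤ h → z ≠ 0 →
      z + z⁻¹ = (x0 : ℂ) + (h : ℂ) * I → CPt D lf mf M.A p q r G sl le k0 k1 k2 C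
        (addM M.A X (mk M.A (y d.c.ya d.c.yb) (nat_lit 0))) d.c z t →
      HB p q r z fun k => KTab mf d.c.K k t) :
    TCell p q r x0 ((d.c.ya : ℝ) / 2 ^ 48) ((d.c.yb : ℝ) / 2 ^ 48) := by
  obtain ⟨H1, H⟩ := andB_tt H
  obtain ⟨H2, H3⟩ := andB_tt H
  refine tcell_of_z x1 x2 CBT ?_
  intro z y hy0 hya hyb hz _ _ hui hzx
  obtain ⟨t, h⟩ := hD H1 hy0 hya hyb hz hui hzx
  have hI := chkIT_pos hM hn h1 H2 h.pt
  have hz1 := z_ne x1 hzx
  have hN : NZ (kap3 p q r) z := by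
    have h2 := h.P.nz
    rwa [cκ_kR] at h2
  have hfam := fam_ptT hF hp hq hr x1 t1 t2 t3 h.pt hy0 hz hzx hN h.a0 h.a1 h.a2 h.C h.u h.z s0 s1 s2
    H3
  exact ⟨_, near_certB hp hq hr ha hb hc hz hz1 h.P hm hI hfam fun hg => hB hg hy0 hz hzx h⟩

/-! ### chains -/

/-- two lists of the same length, side conditions -/
def sideLT {ε : Type} (f : NDT α β δ → ε → Bool) : List (NDT α β δ) → List ε → Bool
  | [], [] => true
  | d :: l, A :: m => f d A && sideLT f l m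
  | _, _ => false

theorem pcNT_tcell {ε : Type} {f : NDT α β δ → Bool} {g : NDT α β δ → ε → Bool} {a b c : ℕ}
    {x0 : ℝ} {e : ℕ} :
    ∀ (l : List (NDT α β δ)) (d : NDT α β δ) (As : List ε) (y : ℕ), pcNT f e (d :: l) y = true →
      sideLT g (d :: l) As = true →
      (∀ u ∈ d :: l, ∀ A, g u A = true → f u = true →
        TCell a b c x0 ((u.c.ya : ℝ) / 2 ^ 48) ((u.c.yb : ℝ) / 2 ^ 48)) →
      TCell a b c x0 ((y : ℝ) / 2 ^ 48) ((e : ℝ) / 2 ^ 48) := by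
  intro l
  induction l with
  | nil =>
    intro d As y H hA hf
    obtain ⟨h1, H⟩ := andB_tt H
    obtain ⟨-, H⟩ := andB_tt H
    obtain ⟨h3, h4⟩ := andB_tt H
    have e1 : y = d.c.ya := Nat.eq_of_beq_eq_true h1
    have e2 : d.c.yb = e := Nat.eq_of_beq_eq_true h4
    rcases As with _ | ⟨A, As⟩
    · cases hA
    · have hA' : (g d A && sideLT g [] As) = true := hA
      rw [Bool.and_eq_true] at hA'
      rw [e1, ← e2]
      exact hf d List.mem_cons_self A hA'.1 h3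
  | cons d' l ih =>
    intro d As y H hA hf
    obtain ⟨h1, H⟩ := andB_tt H
    obtain ⟨-, H⟩ := andB_tt H
    obtain ⟨h3, h4⟩ := andB_tt H
    have e1 : y = d.c.ya := Nat.eq_of_beq_eq_true h1
    rcases As with _ | ⟨A, As⟩
    · cases hA
    · have hA' : (g d A && sideLT g (d' :: l) As) = true := hA
      rw [Bool.and_eq_true] at hA'
      rw [e1]
      exact (hf d List.mem_cons_self A hA'.1 h3).join (ih d' As d.c.yb h4 hA'.2 fun u hu =>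
        hf u (List.mem_cons_of_mem _ hu))

end

/-! ### the data of the families -/

section

variable {α β : Type}

/-- the condition of the powers -/
def SDF (d : FDT β) : Prop := PowOK d.Ts d.rho d.L.length (d.T.map fun T => T.V)

theorem famOKT_of {D : ℕ} {lf : α → Vt D → ℂ} {mf : (ℕ → ℝ) → β → (ℕ → ℝ) → ℝ}
    {F : β → FDT β → Mo α → Mo α → Mo α → Mo α → Mo α → Bool} (h : FamTOK D lf mf F) :
    FamOKT D lf mf F (fun d => d.kx) (fun d => d.ke) SDF := by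
  intro t ht k k' c x0 hc x z hz hzx hre him K K' L U Zm hK hK' hL hU hZ KT d hF hd o o' hg hg' ho
    ho' i
  exact h ht hc hz hzx hre him hK hK' hL hU hZ hF hd hg hg' ho ho' i

/-- side conditions of a wall -/
def sideWT (W : WN) (D : FDT β) (A : AD) : Bool :=
  !W.f || (D.ke == W.e && (D.kx == W.x && powC D.Ts D.rho D.L.length (D.T.map fun T => T.V) A))

theorem sideWT_iff {W : WN} {D : FDT β} {A : AD} (h : sideWT W D A = true) :
    SdW (fun d : FDT β => d.kx) (fun d => d.ke) SDF W D := by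
  intro hf
  unfold sideWT at h
  rw [hf, Bool.not_true, Bool.false_or, Bool.and_eq_true, Bool.and_eq_true, beq_iff_eq,
    beq_iff_eq] at h
  exact ⟨h.1, h.2.1, powC_ok h.2.2⟩

/-- side conditions of a near cell; `sc` = the side conditions of the middle cells -/
def sideNT (W0 W1 W2 : WN) (sc : CellT α β → Bool) (d : NDT α β (FDT β)) (A : NA) : Bool :=
  sc d.c && (sideWT W0 d.D0 A.A0 && (sideWT W1 d.D1 A.A1 && sideWT W2 d.D2 A.A2))

end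

/-! ### a list of near cells -/

section

variable {α β P v γ : Type} {D : ℕ} {lC : α → Vt D → Cx} {lf : α → Vt D → ℂ}
  {mf : (ℕ → ℝ) → β → (ℕ → ℝ) → ℝ} {lp : P → Vt D → P9} {lv : v → Vt D → VR}
  {lg : γ → Vt D → ℕ} {Sp : P → List Bool → Prop} {Sv' : v → List Bool → Prop}
  {Sg : γ → List Bool → Prop} {M : Mc α β P v γ}

/-- A LIST OF NEAR CELLS -/
theorem list_NT (hM : MK D lC lf mf lp lv lg Sp Sv' Sg M)
    (hn : ∀ (f : ℕ → ℝ) (T : β) (t : ℕ → ℝ), PT D t → (∀ x, 0 ≤ f x) → 0 ≤ mf f T t)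
    {ONE : β} (h1 : ON mf ONE) {F : FTT α β (FDT β)} (hF : FamTOK D lf mf F) (hp : 3 ≤ p)
    (hq : 3 ≤ q) (hr : 3 ≤ r) {a b c : Lb}
    (ha : a.has p) (hb : b.has q) (hc : c.has r) {x0 : ℝ} (x1 : -2 < x0) (x2 : x0 ≤ 2)
    (t1 : xA p q r ≤ x0) (t2 : xA q r p ≤ x0) (t3 : xA r p q ≤ x0) {gb : Bool}
    {W0 W1 W2 : WN} {BE BO : List ℕ} {G : TProg} {il : List IT} {fn : ℕ → ℕ} {sl : List ℕ}
    {le : List LT2} (hm : modNT a b c gb W0 W1 W2 BE BO G il fn sl le = true)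
    {S : Sv P} {W : Vx β} {Y : ℕ → ℕ → α} {k0 k1 k2 : Mo α} {C : Cls α} {Ge : Prog v}
    {X : Mo α} {f0 f1 f2 : Bool} (g0 : f0 = W0.f) (g1 : f1 = W1.f) (g2 : f2 = W2.f)
    {sc : CellT α β → Bool} {l : List (NDT α β (FDT β))} (hl : l ≠ []) {As : List NA}
    (hs : sideLT (sideNT W0 W1 W2 sc) l As = true)
    (hD : ∀ d : CellT α β, sc d = true → chkDT M S W Y C Ge X sl le d = true →
      CAll D lf mf M.A p q r x0 G sl le k0 k1 k2 C (addM M.A X (mk M.A (Y d.ya d.yb) (nat_lit 0)))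
        d) {y e : ℕ}
    (H : chkPNT M S W Y F f0 f1 f2 k0 k1 k2 C Ge X sl le ONE il e l y = true) :
    TCell p q r x0 ((y : ℝ) / 2 ^ 48) ((e : ℝ) / 2 ^ 48) := by
  subst g0
  subst g1
  subst g2
  obtain ⟨d, l, rfl⟩ := List.exists_cons_of_ne_nil hl
  refine pcNT_tcell l d As y H hs fun u _ A hA hc' => ?_
  unfold sideNT at hA
  simp only [Bool.and_eq_true] at hA
  obtain ⟨h0, h2, h3, h4⟩ := hA
  exact cell_NT hM hn h1 (famOKT_of hF) hp hq hr ha hb hc x1 x2 t1 t2 t3 hm (sideWT_iff h2)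
    (sideWT_iff h3) (sideWT_iff h4) hc' (fun hd => hD u.c h0 hd)

/-- A LIST OF NEAR CELLS, families of type B given -/
theorem list_NTB (hM : MK D lC lf mf lp lv lg Sp Sv' Sg M)
    (hn : ∀ (f : ℕ → ℝ) (T : β) (t : ℕ → ℝ), PT D t → (∀ x, 0 ≤ f x) → 0 ≤ mf f T t)
    {ONE : β} (h1 : ON mf ONE) {F : FTT α β (FDT β)} (hF : FamTOK D lf mf F) (hp : 3 ≤ p)
    (hq : 3 ≤ q) (hr : 3 ≤ r) {a b c : Lb}
    (ha : a.has p) (hb : b.has q) (hc : c.has r) {x0 : ℝ} (x1 : -2 < x0) (x2 : x0 ≤ 2)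
    (t1 : xA p q r ≤ x0) (t2 : xA q r p ≤ x0) (t3 : xA r p q ≤ x0) {gb : Bool}
    {W0 W1 W2 : WN} {BE BO : List ℕ} {G : TProg} {il : List IT} {sl : List ℕ}
    {le : List LT2} (hm : modN0 a b c gb W0 W1 W2 BE BO G il sl le = true)
    {S : Sv P} {W : Vx β} {Y : ℕ → ℕ → α} {k0 k1 k2 : Mo α} {C : Cls α} {Ge : Prog v}
    {X : Mo α} {f0 f1 f2 : Bool} (g0 : f0 = W0.f) (g1 : f1 = W1.f) (g2 : f2 = W2.f)
    {sc : CellT α β → Bool} {l : List (NDT α β (FDT β))} (hl : l ≠ []) {As : List NA}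
    (hs : sideLT (sideNT W0 W1 W2 sc) l As = true)
    (hD : ∀ d : CellT α β, sc d = true → chkDT M S W Y C Ge X sl le d = true →
      CAll D lf mf M.A p q r x0 G sl le k0 k1 k2 C (addM M.A X (mk M.A (Y d.ya d.yb) (nat_lit 0)))
        d)
    (hB : gb = true → ∀ d ∈ l, ∀ {z : ℂ} {h : ℝ} {t : ℕ → ℝ}, 0 ≤ h → z ≠ 0 →
      z + z⁻¹ = (x0 : ℂ) + (h : ℂ) * I → CPt D lf mf M.A p q r G sl le k0 k1 k2 C
        (addM M.A X (mk M.A (Y d.c.ya d.c.yb) (nat_lit 0))) d.c z t →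
      HB p q r z fun k => KTab mf d.c.K k t) {y e : ℕ}
    (H : chkPNT M S W Y F f0 f1 f2 k0 k1 k2 C Ge X sl le ONE il e l y = true) :
    TCell p q r x0 ((y : ℝ) / 2 ^ 48) ((e : ℝ) / 2 ^ 48) := by
  subst g0
  subst g1
  subst g2
  obtain ⟨d, l, rfl⟩ := List.exists_cons_of_ne_nil hl
  refine pcNT_tcell l d As y H hs fun u hu A hA hc' => ?_
  unfold sideNT at hA
  simp only [Bool.and_eq_true] at hA
  obtain ⟨h0, h2, h3, h4⟩ := hA
  exact cell_NTB hM hn h1 (famOKT_of hF) hp hq hr ha hb hc x1 x2 t1 t2 t3 hm (sideWT_iff h2)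
    (sideWT_iff h3) (sideWT_iff h4) hc' (fun hd => hD u.c h0 hd) (fun hg => hB hg u hu)

end

end Pool.Agent.Helper39.NFT
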