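import Pool.Agent.Helper39.CT.NFD
import Pool.Agent.Helper21.CT.KTN

/-!
Row NCT, near cells of the classes with tails: the theorem of a module, exact line `x = xA p q r`.
-/

set_option autoImplicit false
set_option exponentiation.threshold 4000
noncomputable section
namespace Pool.Agent.Helper39.NFT

open Pool.Agent.Helper81.MIT
open Pool.Agent.Helper86.CX (Hm P9 VR ev Cx andB)
open Pool.Agent.Helper86.CT (LT2 Mo Mc Mq Sv Vx Cls Prog CellT Rw chkDT mk addM uM zM Alg mkCls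
  clsOK xAM xAOK)
open Pool.Agent.Helper90.C75 (Vt)
open Pool.Agent.Helper90.KMT (PT TOK KTab CLT)
open Pool.Agent.Helper6.MONO (kk Kp xA xA_gt xA_le2 xA_max xA_swap kb kap_enc)
open Pool.Agent.Helper6.MONO.QTR (TCell)
open Pool.Agent.Helper6.MID (kap3)
open Pool.Agent.Helper39.NCL (WN NA)
open Pool.Agent.Helper21.KRN (TProg PtR XM expand xOK cκ)
open Pool.Agent.Helper21.KTE (MZ KS wfK CLD chkDT_pt sideT TOK_xA)
open Pool.Agent.Helper48.NCT (IT FTT NDT chkPNT ON)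
open Pool.Agent.Helper57.KNB (FDT FamTOK)
open Complex ComplexConjugate

variable {p q r : ℕ}

/-! ### labels and literals -/

/-- the literal of a weight belongs to the label -/
def ksLb : KS → Lb → Bool
  | KS.E n, Lb.ex N => n == kb N
  | KS.T _ a b, Lb.tl lo hi => a == lo && b == hi
  | _, _ => false

theorem ksLb_ok {s : KS} {B : Lb} (h : ksLb s B = true) {M : ℕ} (hM : B.has M) : s.ok (Kp M) := by
  cases s with
  | E n =>
    cases B with
    | ex N =>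
      obtain ⟨rfl, h3, h9⟩ := hM
      have e : n = kb M := by simpa [ksLb] using h
      subst e
      have h1 := kap_enc M h3 (by omega)
      show |2 ^ 48 * Kp M - (kb M : ℝ)| ≤ 1
      have e2 : 2 ^ 48 * Kp M - (kb M : ℝ) = 2 ^ 48 * (Kp M - (kb M : ℝ) / 2 ^ 48) := by
        field_simp
      rw [e2, abs_mul, abs_of_pos (by positivity : (0 : ℝ) < 2 ^ 48)]
      calc (2 : ℝ) ^ 48 * |Kp M - (kb M : ℝ) / 2 ^ 48| ≤ 2 ^ 48 * (1 / 2 ^ 48) :=
            mul_le_mul_of_nonneg_left h1 (by positivity)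
        _ = 1 := by norm_num
    | tl lo hi => exact absurd h (by simp [ksLb])
  | T j a b =>
    cases B with
    | ex N => exact absurd h (by simp [ksLb])
    | tl lo hi =>
      have e : a = lo ∧ b = hi := by simpa [ksLb] using h
      obtain ⟨rfl, rfl⟩ := e
      exact ⟨hM.2.1, hM.2.2⟩

theorem has_ge {B : Lb} {M : ℕ} (h : B.has M) : 3 ≤ M := by
  cases B with
  | ex N =>
    obtain ⟨rfl, h3, -⟩ := h
    exact h3
  | tl lo hi => exact (by norm_num : 3 ≤ 10).trans h.1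

/-- all orders of the first label are at most the orders of the second -/
def lbLe : Lb → Lb → Bool
  | Lb.ex N, Lb.ex N' => decide (N ≤ N')
  | Lb.ex _, Lb.tl _ _ => true
  | _, _ => false

theorem lbLe_ok {B B' : Lb} (h : lbLe B B' = true) {M M' : ℕ} (hM : B.has M) (hM' : B'.has M') :
    M ≤ M' := by
  cases B with
  | ex N =>
    obtain ⟨rfl, -, h9⟩ := hM
    cases B' with
    | ex N' =>
      obtain ⟨rfl, -, -⟩ := hM'
      simpa [lbLe] using h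
    | tl lo hi => exact (h9.trans (by norm_num)).trans hM'.1
  | tl lo hi => exact absurd h (by simp [lbLe])

section

variable {α β P v γ : Type} {D : ℕ} {lC : α → Vt (D + 1) → Cx} {lf : α → Vt (D + 1) → ℂ}
  {mf : (ℕ → ℝ) → β → (ℕ → ℝ) → ℝ} {lp : P → Vt (D + 1) → P9} {lv : v → Vt (D + 1) → VR}
  {lg : γ → Vt (D + 1) → ℕ} {Sa : α → List Bool → Prop} {Sp : P → List Bool → Prop}
  {Sv' : v → List Bool → Prop} {Sg : γ → List Bool → Prop} {M : Mc α β P v γ}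
  {S : Sv P} {W : Vx β} {Y : ℕ → ℕ → α} {qd : ℕ → Cx → Cx → Cx → α} {rt : α → Bool}

/-- the Boolean conditions of the weights of a module on the exact line -/
def modXT (M : Mc α β P v γ) (rt : α → Bool) (D : ℕ) (X : XM α v) (s0 s1 s2 : KS) (a b c : Lb) :
    Bool :=
  ksLb s0 a && (ksLb s1 b && (ksLb s2 c && (wfK D s0 s1 s2 && (xOK X && (clsOK M.A X.k0 X.k1 X.k2 &&
    (xAOK M.A X.k0 X.k1 X.k2 && rt (xAM M.A X.k0 X.k1 X.k2).v))))))

/-- the data of the weights at the orders `p q r`, line `x = xA p q r` -/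
theorem cld_A {X : XM α v} {Q : Mq α v} {cv : VR → v} {rc : Rw}
    (hZ : MZ D lC lf mf lp lv lg Sa Sp Sv' Sg M Q cv rc S W Y qd rt) (hD : D ≤ 3) {a b c : Lb}
    (ha : a.has p) (hb : b.has q) (hc : c.has r) {s0 s1 s2 : KS}
    (h : modXT M rt D X s0 s1 s2 a b c = true) (e0 : X.k0 = s0.mo M.A qd)
    (e1 : X.k1 = s1.mo M.A qd) (e2 : X.k2 = s2.mo M.A qd) :
    CLD D lf M qd rt X (xAM M.A X.k0 X.k1 X.k2) s0 s1 s2 (kR p q r) (xA p q r) := by
  unfold modXT at h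
  simp only [Bool.and_eq_true] at h
  obtain ⟨h1, h2, h3, h4, h5, h6, h7, h8⟩ := h
  refine ⟨hD, h4, ksLb_ok h1 ha, ksLb_ok h2 hb, ksLb_ok h3 hc, e0, e1, e2, h5, h6, h8, ?_⟩
  intro t ht g0 g1 g2
  have g := TOK_xA hZ.m.a ht g0 g1 g2 h7
  have e : ((4 - (kR p q r 0 * kR p q r 1) ^ 2 - kR p q r 2 ^ 2) /
      (kR p q r 0 * kR p q r 1 * kR p q r 2) : ℝ) = xA p q r := by
    show (4 - (kk p q r 0 1 * kk p q r 1 2) ^ 2 - kk p q r 2 0 ^ 2) /
      (kk p q r 0 1 * kk p q r 1 2 * kk p q r 2 0) = xA p q r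
    unfold xA
    congr 1
    ring
  rwa [e] at g

/-- A MODULE OF NEAR CELLS, exact line -/
theorem nearT_A {X : XM α v}
    (hZ : MZ D lC lf mf lp lv lg Sa Sp Sv' Sg M X.Q X.c X.r S W Y qd rt) (hD : D ≤ 3) {ONE : β}
    (h1 : ON mf ONE) {F : FTT α β (FDT β)} (hF : FamTOK (D + 1) lf mf F) {a b c : Lb}
    (ha : a.has p) (hb : b.has q) (hc : c.has r) (hp : 3 ≤ p) (hq : 3 ≤ q) (hpr : p ≤ r)
    (hqr : q ≤ r) {s0 s1 s2 : KS} (hx : modXT M rt D X s0 s1 s2 a b c = true)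
    (e0 : X.k0 = s0.mo M.A qd) (e1 : X.k1 = s1.mo M.A qd) (e2 : X.k2 = s2.mo M.A qd) {gb : Bool}
    {W0 W1 W2 : WN} {BE BO : List ℕ} {G : TProg} {il : List IT} {fn : ℕ → ℕ} {sl : List ℕ}
    {le : List LT2} (hm : modNT a b c gb W0 W1 W2 BE BO G il fn sl le = true)
    {f0 f1 f2 : Bool} (g0 : f0 = W0.f) (g1 : f1 = W1.f) (g2 : f2 = W2.f)
    {l : List (NDT α β (FDT β))} (hl : l ≠ []) {As : List NA}
    (hs : sideLT (sideNT W0 W1 W2 (sideT W le)) l As = true) {y e : ℕ}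
    (H : chkPNT M S W Y F f0 f1 f2 X.k0 X.k1 X.k2 (mkCls M.A X.k0 X.k1 X.k2) (expand X G)
      (xAM M.A X.k0 X.k1 X.k2) sl le ONE il e l y = true) :
    TCell p q r (xA p q r) ((y : ℝ) / 2 ^ 48) ((e : ℝ) / 2 ^ 48) := by
  have hr : 3 ≤ r := hp.trans hpr
  have hC := cld_A (X := X) hZ hD ha hb hc hx e0 e1 e2
  have t3 : xA q r p ≤ xA p q r := by
    have h := xA_max hq hp hpr
    rw [xA_swap p q r] at h
    rwa [xA_swap q r p] at h
  refine list_NT hZ.m.k hZ.w.pos h1 hF hp hq hr ha hb hc (xA_gt hp hq hqr) (xA_le2 hp hq hr) le_rfl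
    t3 (xA_max hp hq hqr) hm g0 g1 g2 hl hs ?_ H
  intro d hd hk z h hh0 hha hhb hz hui hzx
  obtain ⟨t, b1, b2, b3, b4, b5, b6, b7, b8⟩ := chkDT_pt hZ hC hd hk (h := h)
    (by rw [div_le_iff₀ (by positivity)] at hha; linarith)
    (by rw [le_div_iff₀ (by positivity)] at hhb; linarith) hz hzx hui
  rw [cκ_kR] at b6
  exact ⟨t, b1, b2, b3, b4, b5, b6, b7, b8⟩

/-- the same, labels with `p ≤ r` and `q ≤ r` -/
theorem nearT_lb {X : XM α v}
    (hZ : MZ D lC lf mf lp lv lg Sa Sp Sv' Sg M X.Q X.c X.r S W Y qd rt) (hD : D ≤ 3) {ONE : β}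
    (h1 : ON mf ONE) {F : FTT α β (FDT β)} (hF : FamTOK (D + 1) lf mf F) {a b c : Lb}
    (ha : a.has p) (hb : b.has q) (hc : c.has r) (h13 : lbLe a c = true) (h23 : lbLe b c = true)
    {s0 s1 s2 : KS} (hx : modXT M rt D X s0 s1 s2 a b c = true)
    (e0 : X.k0 = s0.mo M.A qd) (e1 : X.k1 = s1.mo M.A qd) (e2 : X.k2 = s2.mo M.A qd) {gb : Bool}
    {W0 W1 W2 : WN} {BE BO : List ℕ} {G : TProg} {il : List IT} {fn : ℕ → ℕ} {sl : List ℕ}
    {le : List LT2} (hm : modNT a b c gb W0 W1 W2 BE BO G il fn sl le = true)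
    {f0 f1 f2 : Bool} (g0 : f0 = W0.f) (g1 : f1 = W1.f) (g2 : f2 = W2.f)
    {l : List (NDT α β (FDT β))} (hl : l ≠ []) {As : List NA}
    (hs : sideLT (sideNT W0 W1 W2 (sideT W le)) l As = true) {y e : ℕ}
    (H : chkPNT M S W Y F f0 f1 f2 X.k0 X.k1 X.k2 (mkCls M.A X.k0 X.k1 X.k2) (expand X G)
      (xAM M.A X.k0 X.k1 X.k2) sl le ONE il e l y = true) :
    TCell p q r (xA p q r) ((y : ℝ) / 2 ^ 48) ((e : ℝ) / 2 ^ 48) :=
  nearT_A hZ hD h1 hF ha hb hc (has_ge ha) (has_ge hb) (lbLe_ok h13 ha hc) (lbLe_ok h23 hb hc) hx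
    e0 e1 e2 hm g0 g1 g2 hl hs H

end

end Pool.Agent.Helper39.NFT
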