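import Pool.Agent.Helper39.CT.NFE
import Pool.Agent.Helper57.KNB.KC3
import Pool.Agent.Helper57.KNB.KC7
import Pool.Agent.Helper21.CT.XBM

/-!
Row NCT, near cells of the classes with three tails, line `Re x = x_B(κ)`: modules without and with
tests of type B.
-/

set_option autoImplicit false
set_option exponentiation.threshold 4000
noncomputable section
namespace Pool.Agent.Helper39.NFT

open Pool.Agent.Helper81.MIT
open Pool.Agent.Helper86.CX (Hm P9 VR ev Cx andB)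
open Pool.Agent.Helper86.CT (LT2 Mo Mc Mq Sv Vx Cls Prog CellT Rw chkDT mk addM uM zM Alg mkCls
  clsOK)
open Pool.Agent.Helper90.C75 (Vt)
open Pool.Agent.Helper90.KMT (PT TOK KTab CLT)
open Pool.Agent.Helper6.MONO (kk Kp xA)
open Pool.Agent.Helper6.MONO.QTR (TCell)
open Pool.Agent.Helper39.NCL (WN NA)
open Pool.Agent.Helper21.KRN (TProg PtR XM expand xOK cκ)
open Pool.Agent.Helper21.KTE (MZ KS wfK CLD chkDT_pt sideT)
open Pool.Agent.Helper48.NCT (IT FTT NDT chkPNT ON)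
open Pool.Agent.Helper57.KNB (FDT FamTOK NBT NAB BXT BXOK chkPNB modNB sideLB sideNBT nearT_B)
open Pool.Agent.Helper21.XB (xBr xBp K14 K14_Kp fB_xBp x0_xB thr_xBp xBOK xBM)
open Complex ComplexConjugate

variable {p q r : ℕ}

section

variable {α β P v γ : Type} {D : ℕ} {lC : α → Vt (D + 1) → Cx} {lf : α → Vt (D + 1) → ℂ}
  {mf : (ℕ → ℝ) → β → (ℕ → ℝ) → ℝ} {lp : P → Vt (D + 1) → P9} {lv : v → Vt (D + 1) → VR}
  {lg : γ → Vt (D + 1) → ℕ} {Sa : α → List Bool → Prop} {Sp : P → List Bool → Prop}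
  {Sv' : v → List Bool → Prop} {Sg : γ → List Bool → Prop} {M : Mc α β P v γ}
  {S : Sv P} {W : Vx β} {Y : ℕ → ℕ → α} {qd : ℕ → Cx → Cx → Cx → α} {rt : α → Bool}

/-- the Boolean conditions of the weights of a module on the line `x_B` -/
def modXB (M : Mc α β P v γ) (rt : α → Bool) (D : ℕ) (X : XM α v) (C : α) (n : ℕ)
    (s0 s1 s2 : KS) (a b c : Lb) : Bool :=
  ksLb s0 a && (ksLb s1 b && (ksLb s2 c && (wfK D s0 s1 s2 && (xOK X && (clsOK M.A X.k0 X.k1 X.k2 &&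
    (rt C && (rt (xBM M.A X.k0 X.k1 X.k2 C n).v && xBOK M.A X.k0 X.k1 X.k2 C n)))))))

/-- the data of the weights at the orders `p q r`, line `x = x_B` -/
theorem cld_B {X : XM α v} {Q : Mq α v} {cv : VR → v} {rc : Rw}
    (hZ : MZ D lC lf mf lp lv lg Sa Sp Sv' Sg M Q cv rc S W Y qd rt) (hD : D ≤ 3) {a b c : Lb}
    (ha : a.has p) (hb : b.has q) (hc : c.has r) (hp : 14 ≤ p) (hq : 14 ≤ q) (hr : 14 ≤ r)
    {s0 s1 s2 : KS} {C : α} {n : ℕ}
    (h : modXB M rt D X C n s0 s1 s2 a b c = true) (e0 : X.k0 = s0.mo M.A qd)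
    (e1 : X.k1 = s1.mo M.A qd) (e2 : X.k2 = s2.mo M.A qd) :
    CLD D lf M qd rt X (xBM M.A X.k0 X.k1 X.k2 C n) s0 s1 s2 (kR p q r) (xBp p q r) := by
  unfold modXB at h
  simp only [Bool.and_eq_true] at h
  obtain ⟨h1, h2, h3, h4, h5, h6, h7, h8, h9⟩ := h
  refine ⟨hD, h4, ksLb_ok h1 ha, ksLb_ok h2 hb, ksLb_ok h3 hc, e0, e1, e2, h5, h6, h8, ?_⟩
  exact x0_xB hZ.m.a hZ.t (κ := kR p q r) (show K14 (Kp p) from K14_Kp hp)
    (show K14 (Kp q) from K14_Kp hq) (show K14 (Kp r) from K14_Kp hr) h7 h9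

/-- A MODULE OF NEAR CELLS on the line `x_B`, families of type A, extra forms for type B -/
theorem nearT_xB {X : XM α v}
    (hZ : MZ D lC lf mf lp lv lg Sa Sp Sv' Sg M X.Q X.c X.r S W Y qd rt) (hD : D ≤ 3) {ONE : β}
    (h1 : ON mf ONE) {F : FTT α β (FDT β)} (hF : FamTOK (D + 1) lf mf F) {a b c : Lb}
    (ha : a.has p) (hb : b.has q) (hc : c.has r) (hp : 14 ≤ p) (hq : 14 ≤ q) (hr : 14 ≤ r)
    {s0 s1 s2 : KS} {C : α} {n : ℕ} (hx : modXB M rt D X C n s0 s1 s2 a b c = true)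
    (e0 : X.k0 = s0.mo M.A qd) (e1 : X.k1 = s1.mo M.A qd) (e2 : X.k2 = s2.mo M.A qd) {gb : Bool}
    {W0 W1 W2 : WN} {BE BO : List ℕ} {G : TProg} {il : List IT} {fn : ℕ → ℕ} {sl : List ℕ}
    {le : List LT2} (hm : modNT a b c gb W0 W1 W2 BE BO G il fn sl le = true)
    {f0 f1 f2 : Bool} (g0 : f0 = W0.f) (g1 : f1 = W1.f) (g2 : f2 = W2.f)
    {l : List (NDT α β (FDT β))} (hl : l ≠ []) {As : List NA}
    (hs : sideLT (sideNT W0 W1 W2 (sideT W le)) l As = true) {y e : ℕ}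
    (H : chkPNT M S W Y F f0 f1 f2 X.k0 X.k1 X.k2 (mkCls M.A X.k0 X.k1 X.k2) (expand X G)
      (xBM M.A X.k0 X.k1 X.k2 C n) sl le ONE il e l y = true) :
    TCell p q r (xBp p q r) ((y : ℝ) / 2 ^ 48) ((e : ℝ) / 2 ^ 48) := by
  have hC := cld_B (X := X) hZ hD ha hb hc hp hq hr hx e0 e1 e2
  have hT := thr_xBp hp hq hr
  refine list_NT hZ.m.k hZ.w.pos h1 hF (by omega) (by omega) (by omega) ha hb hc hT.gt hT.le
    hT.A1 hT.A2 hT.A3 hm g0 g1 g2 hl hs ?_ H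
  intro d hd hk z h hh0 hha hhb hz hui hzx
  obtain ⟨t, b1, b2, b3, b4, b5, b6, b7, b8⟩ := chkDT_pt hZ hC hd hk (h := h)
    (by rw [div_le_iff₀ (by positivity)] at hha; linarith)
    (by rw [le_div_iff₀ (by positivity)] at hhb; linarith) hz hzx hui
  rw [cκ_kR] at b6
  exact ⟨t, b1, b2, b3, b4, b5, b6, b7, b8⟩

/-- A MODULE OF NEAR CELLS on the line `x_B` with tests of type B -/
theorem nearT_xBB {X : XM α v}
    (hZ : MZ D lC lf mf lp lv lg Sa Sp Sv' Sg M X.Q X.c X.r S W Y qd rt) (hD : D ≤ 3) {ONE : β}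
    (h1 : ON mf ONE) {F : FTT α β (FDT β)} (hF : FamTOK (D + 1) lf mf F) {FB : BXT α β}
    (hFB : BXOK (D + 1) lf mf FB) {a b c : Lb}
    (ha : a.has p) (hb : b.has q) (hc : c.has r) (hp : 14 ≤ p) (hq : 14 ≤ q) (hr : 14 ≤ r)
    {s0 s1 s2 : KS} {C : α} {n : ℕ} (hx : modXB M rt D X C n s0 s1 s2 a b c = true)
    (e0 : X.k0 = s0.mo M.A qd) (e1 : X.k1 = s1.mo M.A qd) (e2 : X.k2 = s2.mo M.A qd)
    {W0 W1 W2 : WN} {BE BO : List ℕ} {G : TProg} {il : List IT} {sl : List ℕ}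
    {le : List LT2} (hm : modNB a b c W0 W1 W2 BE BO G il sl le = true)
    {f0 f1 f2 : Bool} (g0 : f0 = W0.f) (g1 : f1 = W1.f) (g2 : f2 = W2.f)
    {l : List (NBT α β (FDT β))} (hl : l ≠ []) {As : List NAB}
    (hs : sideLB (sideNBT a b c W0 W1 W2 (sideT W le)) l As = true) {y e : ℕ}
    (H : chkPNB M S W Y F FB f0 f1 f2 X.k0 X.k1 X.k2 (mkCls M.A X.k0 X.k1 X.k2) (expand X G)
      (xBM M.A X.k0 X.k1 X.k2 C n) sl le ONE il e l y = true) :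
    TCell p q r (xBp p q r) ((y : ℝ) / 2 ^ 48) ((e : ℝ) / 2 ^ 48) := by
  have hC := cld_B (X := X) hZ hD ha hb hc hp hq hr hx e0 e1 e2
  have hT := thr_xBp hp hq hr
  exact nearT_B hZ h1 hF hFB ha hb hc hC hT.gt hT.le hT.A1 hT.A2 hT.A3
    (fB_xBp hp hq hr) hm g0 g1 g2 hl hs H

end

open Pool.Agent.Helper90.KMT in
/-- the B test of `KerT`, three tails -/
theorem chBNU4_ok : BXOK 4 (nlf (nlf (nlf (nlf lf0)))) (nmf 3 (nmf 2 (nmf 1 (nmf 0 mf0))))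
    (Pool.Agent.Helper57.KNB.chBNU Pool.Agent.Helper86.CT.K4 Pool.Agent.Helper86.CT.W4
      Pool.Agent.Helper57.KNB.Lw4) :=
  Pool.Agent.Helper57.KNB.chBNU_ok A4_ok U4_ok (by decide) Pool.Agent.Helper57.KNB.W4_law T4_ok
    Pool.Agent.Helper57.KNB.Lw4_ok

end Pool.Agent.Helper39.NFT
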