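import Pool.Agent.Helper39.CT.NFG
import Pool.Agent.Helper81.MIT.Mod
import Pool.Agent.Helper30.CT.MZ1

/-!
Row NCT, near cells on a line `Re x = x0` with a constant model of `x0` (exact classes, labels
which may be thin): all kinds of near modules.
-/

set_option autoImplicit false
set_option exponentiation.threshold 4000
noncomputable section
namespace Pool.Agent.Helper39.NFT

open Pool.Agent.Helper81.MIT
open Pool.Agent.Helper86.CX (Hm P9 VR ev Cx andB)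
open Pool.Agent.Helper86.CT (LT2 Mo Mc Mq Sv Vx Cls Prog CellT Rw chkDT mk addM uM zM Alg mkCls
  clsOK)
open Pool.Agent.Helper90.C75 (Vt)
open Pool.Agent.Helper86.C75 (Z)
open Pool.Agent.Helper90.KMO (zv)
open Pool.Agent.Helper90.KMT (PT TOK KTab CLT)
open Pool.Agent.Helper6.MONO (kk Kp xA fB Thr)
open Pool.Agent.Helper6.MONO.QTR (TCell)
open Pool.Agent.Helper39.NCL (WN NA)
open Pool.Agent.Helper21.KRN (TProg PtR XM expand xOK cκ)
open Pool.Agent.Helper21.KTE (MZ KS wfK CLD chkDT_pt sideT TOK_xC)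
open Pool.Agent.Helper48.NCT (IT FTT NDT chkPNT ON)
open Pool.Agent.Helper57.KNB (FDT FamTOK NBT NAB BXT BXOK chkPNB modNB sideLB sideNBT nearT_B)
open Complex ComplexConjugate

variable {p q r : ℕ}

section

variable {α β P v γ : Type} {D : ℕ} {lC : α → Vt (D + 1) → Cx} {lf : α → Vt (D + 1) → ℂ}
  {mf : (ℕ → ℝ) → β → (ℕ → ℝ) → ℝ} {lp : P → Vt (D + 1) → P9} {lv : v → Vt (D + 1) → VR}
  {lg : γ → Vt (D + 1) → ℕ} {Sa : α → List Bool → Prop} {Sp : P → List Bool → Prop}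
  {Sv' : v → List Bool → Prop} {Sg : γ → List Bool → Prop} {M : Mc α β P v γ}
  {S : Sv P} {W : Vx β} {Y : ℕ → ℕ → α} {qd : ℕ → Cx → Cx → Cx → α} {rt : α → Bool}

/-- the model of a constant -/
def cX (A : Alg α) (Xz : Z) (n : ℕ) : Mo α := mk A (A.cs ⟨Xz, Z.p (nat_lit 0)⟩) n

/-- the Boolean conditions of the weights of a module on a constant line -/
def modXE (M : Mc α β P v γ) (rt : α → Bool) (D : ℕ) (X : XM α v) (Xz : Z) (n : ℕ)
    (s0 s1 s2 : KS) (a b c : Lb) : Bool :=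
  wfL D s0 s1 s2 a b c && (xOK X && (clsOK M.A X.k0 X.k1 X.k2 && rt (cX M.A Xz n).v))

/-- the data of the weights at the orders `p q r`, constant line -/
theorem cld_E {X : XM α v} {Q : Mq α v} {cv : VR → v} {rc : Rw}
    (hZ : MZ D lC lf mf lp lv lg Sa Sp Sv' Sg M Q cv rc S W Y qd rt) {a b c : Lb}
    (ha : a.has p) (hb : b.has q) (hc : c.has r) {s0 s1 s2 : KS} {Xz : Z} {n : ℕ}
    (h : modXE M rt D X Xz n s0 s1 s2 a b c = true) (e0 : X.k0 = s0.mo M.A qd)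
    (e1 : X.k1 = s1.mo M.A qd) (e2 : X.k2 = s2.mo M.A qd) {x0 : ℝ}
    (hX : |2 ^ 48 * x0 - (zv Xz : ℝ)| ≤ (n : ℝ)) :
    CLD D lf M qd rt X (cX M.A Xz n) s0 s1 s2 (kR p q r) x0 := by
  unfold modXE wfL at h
  simp only [Bool.and_eq_true] at h
  obtain ⟨⟨w1, w2, w3, w4, w5⟩, h2, h3, h4⟩ := h
  exact ⟨Nat.le_of_ble_eq_true w1, w2, by rw [kR_0]; exact mat_ok w3 ha,
    by rw [kR_1]; exact mat_ok w4 hb, by rw [kR_2]; exact mat_ok w5 hc, e0, e1, e2, h2, h3, h4,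
    fun _ ht _ _ _ => TOK_xC hZ.m.a ht hX⟩

/-- constant line: families of type A, extra forms for type B -/
theorem nearT_E {X : XM α v}
    (hZ : MZ D lC lf mf lp lv lg Sa Sp Sv' Sg M X.Q X.c X.r S W Y qd rt) {ONE : β}
    (h1 : ON mf ONE) {F : FTT α β (FDT β)} (hF : FamTOK (D + 1) lf mf F) {a b c : Lb}
    (ha : a.has p) (hb : b.has q) (hc : c.has r)
    {s0 s1 s2 : KS} {Xz : Z} {n : ℕ} (hx : modXE M rt D X Xz n s0 s1 s2 a b c = true)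
    (e0 : X.k0 = s0.mo M.A qd) (e1 : X.k1 = s1.mo M.A qd) (e2 : X.k2 = s2.mo M.A qd) {x0 : ℝ}
    (hX : |2 ^ 48 * x0 - (zv Xz : ℝ)| ≤ (n : ℝ)) (hT : Thr p q r x0) {gb : Bool}
    {W0 W1 W2 : WN} {BE BO : List ℕ} {G : TProg} {il : List IT} {fn : ℕ → ℕ} {sl : List ℕ}
    {le : List LT2} (hm : modNT a b c gb W0 W1 W2 BE BO G il fn sl le = true)
    {f0 f1 f2 : Bool} (g0 : f0 = W0.f) (g1 : f1 = W1.f) (g2 : f2 = W2.f)
    {l : List (NDT α β (FDT β))} (hl : l ≠ []) {As : List NA}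
    (hs : sideLT (sideNT W0 W1 W2 (sideT W le)) l As = true) {y e : ℕ}
    (H : chkPNT M S W Y F f0 f1 f2 X.k0 X.k1 X.k2 (mkCls M.A X.k0 X.k1 X.k2) (expand X G)
      (cX M.A Xz n) sl le ONE il e l y = true) :
    TCell p q r x0 ((y : ℝ) / 2 ^ 48) ((e : ℝ) / 2 ^ 48) := by
  have hC := cld_E (X := X) hZ ha hb hc hx e0 e1 e2 hX
  refine list_NT hZ.m.k hZ.w.pos h1 hF (has_ge ha) (has_ge hb) (has_ge hc) ha hb hc hT.gt hT.le
    hT.A1 hT.A2 hT.A3 hm g0 g1 g2 hl hs ?_ H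
  intro d hd hk z h hh0 hha hhb hz hui hzx
  obtain ⟨t, b1, b2, b3, b4, b5, b6, b7, b8⟩ := chkDT_pt hZ hC hd hk (h := h)
    (by rw [div_le_iff₀ (by positivity)] at hha; linarith)
    (by rw [le_div_iff₀ (by positivity)] at hhb; linarith) hz hzx hui
  rw [cκ_kR] at b6
  exact ⟨t, b1, b2, b3, b4, b5, b6, b7, b8⟩

/-- constant line: tests of type B -/
theorem nearT_EB {X : XM α v}
    (hZ : MZ D lC lf mf lp lv lg Sa Sp Sv' Sg M X.Q X.c X.r S W Y qd rt) {ONE : β}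
    (h1 : ON mf ONE) {F : FTT α β (FDT β)} (hF : FamTOK (D + 1) lf mf F) {FB : BXT α β}
    (hFB : BXOK (D + 1) lf mf FB) {a b c : Lb}
    (ha : a.has p) (hb : b.has q) (hc : c.has r)
    {s0 s1 s2 : KS} {Xz : Z} {n : ℕ} (hx : modXE M rt D X Xz n s0 s1 s2 a b c = true)
    (e0 : X.k0 = s0.mo M.A qd) (e1 : X.k1 = s1.mo M.A qd) (e2 : X.k2 = s2.mo M.A qd) {x0 : ℝ}
    (hX : |2 ^ 48 * x0 - (zv Xz : ℝ)| ≤ (n : ℝ)) (hT : Thr p q r x0) (tB : fB p q r x0 = 0)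
    {W0 W1 W2 : WN} {BE BO : List ℕ} {G : TProg} {il : List IT} {sl : List ℕ}
    {le : List LT2} (hm : modNB a b c W0 W1 W2 BE BO G il sl le = true)
    {f0 f1 f2 : Bool} (g0 : f0 = W0.f) (g1 : f1 = W1.f) (g2 : f2 = W2.f)
    {l : List (NBT α β (FDT β))} (hl : l ≠ []) {As : List NAB}
    (hs : sideLB (sideNBT a b c W0 W1 W2 (sideT W le)) l As = true) {y e : ℕ}
    (H : chkPNB M S W Y F FB f0 f1 f2 X.k0 X.k1 X.k2 (mkCls M.A X.k0 X.k1 X.k2) (expand X G)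
      (cX M.A Xz n) sl le ONE il e l y = true) :
    TCell p q r x0 ((y : ℝ) / 2 ^ 48) ((e : ℝ) / 2 ^ 48) := by
  have hC := cld_E (X := X) hZ ha hb hc hx e0 e1 e2 hX
  exact nearT_B hZ h1 hF hFB ha hb hc hC hT.gt hT.le hT.A1 hT.A2 hT.A3 tB hm g0 g1 g2 hl hs H

/-- constant line: two chains -/
theorem nearT_ECC {X : XM α v}
    (hZ : MZ D lC lf mf lp lv lg Sa Sp Sv' Sg M X.Q X.c X.r S W Y qd rt) {ONE : β}
    (h1 : ON mf ONE) {F : FTT α β (FDT β)} (hF : FamTOK (D + 1) lf mf F) {a b c : Lb}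
    (ha : a.has p) (hb : b.has q) (hc : c.has r)
    {s0 s1 s2 : KS} {Xz : Z} {n : ℕ} (hx : modXE M rt D X Xz n s0 s1 s2 a b c = true)
    (e0 : X.k0 = s0.mo M.A qd) (e1 : X.k1 = s1.mo M.A qd) (e2 : X.k2 = s2.mo M.A qd) {x0 : ℝ}
    (hX : |2 ^ 48 * x0 - (zv Xz : ℝ)| ≤ (n : ℝ)) (hT : Thr p q r x0)
    {W0 W1 W2 : WN} {cA cB : Ch} {BE BO : List ℕ} {G : TProg} {il : List IT} {sl : List ℕ}
    {le : List LT2} (hm : modCC a b c cA cB BE BO G il sl le = true)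
    {f0 f1 f2 : Bool} (g0 : f0 = W0.f) (g1 : f1 = W1.f) (g2 : f2 = W2.f)
    {l : List (NDT α β (FDT β))} (hl : l ≠ []) {As : List NA}
    (hs : sideLT (sideNT W0 W1 W2 (sideT W le)) l As = true) {y e : ℕ}
    (H : chkPNT M S W Y F f0 f1 f2 X.k0 X.k1 X.k2 (mkCls M.A X.k0 X.k1 X.k2) (expand X G)
      (cX M.A Xz n) sl le ONE il e l y = true) :
    TCell p q r x0 ((y : ℝ) / 2 ^ 48) ((e : ℝ) / 2 ^ 48) := by
  have hC := cld_E (X := X) hZ ha hb hc hx e0 e1 e2 hX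
  have hp := has_ge ha
  have hq := has_ge hb
  have hr := has_ge hc
  refine nearT_G hZ h1 hF hp hq hr hC hT.gt hT.le hT.A1 hT.A2 hT.A3
    (W0 := W0) (W1 := W1) (W2 := W2) ?_ g0 g1 g2 hl hs H
  intro z hz hz1 K hP hI _
  exact near_certCC hp hq hr ha hb hc hz hz1 hP hm hI

/-- constant line: walls (families or single runs) and a chain for the runs of two letters -/
theorem nearT_EC {X : XM α v}
    (hZ : MZ D lC lf mf lp lv lg Sa Sp Sv' Sg M X.Q X.c X.r S W Y qd rt) {ONE : β}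
    (h1 : ON mf ONE) {F : FTT α β (FDT β)} (hF : FamTOK (D + 1) lf mf F) {a b c : Lb}
    (ha : a.has p) (hb : b.has q) (hc : c.has r)
    {s0 s1 s2 : KS} {Xz : Z} {n : ℕ} (hx : modXE M rt D X Xz n s0 s1 s2 a b c = true)
    (e0 : X.k0 = s0.mo M.A qd) (e1 : X.k1 = s1.mo M.A qd) (e2 : X.k2 = s2.mo M.A qd) {x0 : ℝ}
    (hX : |2 ^ 48 * x0 - (zv Xz : ℝ)| ≤ (n : ℝ)) (hT : Thr p q r x0)
    {W0 W1 W2 : WN} {cB : Ch} {BE BO : List ℕ} {G : TProg} {il : List IT} {sl : List ℕ}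
    {le : List LT2} (hm : modNC a b c W0 W1 W2 cB BE BO G il sl le = true)
    {f0 f1 f2 : Bool} (g0 : f0 = W0.f) (g1 : f1 = W1.f) (g2 : f2 = W2.f)
    {l : List (NDT α β (FDT β))} (hl : l ≠ []) {As : List NA}
    (hs : sideLT (sideNT W0 W1 W2 (sideT W le)) l As = true) {y e : ℕ}
    (H : chkPNT M S W Y F f0 f1 f2 X.k0 X.k1 X.k2 (mkCls M.A X.k0 X.k1 X.k2) (expand X G)
      (cX M.A Xz n) sl le ONE il e l y = true) :
    TCell p q r x0 ((y : ℝ) / 2 ^ 48) ((e : ℝ) / 2 ^ 48) := by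
  have hC := cld_E (X := X) hZ ha hb hc hx e0 e1 e2 hX
  have hp := has_ge ha
  have hq := has_ge hb
  have hr := has_ge hc
  refine nearT_G hZ h1 hF hp hq hr hC hT.gt hT.le hT.A1 hT.A2 hT.A3
    (W0 := W0) (W1 := W1) (W2 := W2) ?_ g0 g1 g2 hl hs H
  intro z hz hz1 K hP hI hfam
  exact near_certC hp hq hr ha hb hc hz hz1 hP hm hI hfam

end

open Pool.Agent.Helper90.KMT in
/-- the B test of `KerT`, no tail -/
theorem chBNU1_ok : BXOK 1 (nlf lf0) (nmf 0 mf0)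
    (Pool.Agent.Helper57.KNB.chBNU Pool.Agent.Helper86.CT.K1 Pool.Agent.Helper86.CT.W1
      Pool.Agent.Helper57.KNB.Lw1) :=
  Pool.Agent.Helper57.KNB.chBNU_ok A1_ok U1_ok (by decide) Pool.Agent.Helper57.KNB.W1_law T1_ok
    Pool.Agent.Helper57.KNB.Lw1_ok

end Pool.Agent.Helper39.NFT
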