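import Pool.Agent.Helper21.CT.XQC

/-!
The line `x_B` with the exact sign test, directions in the order of the converters
(`κ_0` : direction 2, `κ_1` : direction 1, `κ_2` : direction 0).
-/

set_option autoImplicit false
set_option exponentiation.threshold 4000
noncomputable section
namespace Pool.Agent.Helper39.NFT

open Pool.Agent.Helper6.MONO.XTH (Qf chkB)
open Pool.Agent.Helper86.CX (Cx)
open Pool.Agent.Helper86.CT (N3)
open Pool.Agent.Helper90.KMT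
open Pool.Agent.Helper90.KMO (zv)
open Pool.Agent.Helper21.KTE
open Pool.Agent.Helper21.XB

/-- the control of a literal tree of depth four, `κ_0` outermost -/
def lqr (C : N3 (N3 (N3 (N3 Cx)))) (a b c : Fin 3) : ℤ := lq4 C c b a

theorem avqr {C : N3 (N3 (N3 (N3 Cx)))} (hk : isk C = true) (hr : rt4 C = true)
    {l0 h0 l1 h1 l2 h2 : ℕ} : AvQ 3 (nlf (nlf (nlf (nlf lf0)))) C (lqr C) (KS.T 2 l0 h0)
      (KS.T 1 l1 h1) (KS.T 0 l2 h2) := by
  intro t ht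
  have h := avq4 (C := C) hk hr (l0 := l0) (h0 := h0) (l1 := l1) (h1 := h1) (l2 := l2)
    (h2 := h2) t ht
  rw [h]
  show ((Qf (lq4 C) (t 0) (t 1) (t 2) : ℝ) : ℂ) = ((Qf (lqr C) (t 2) (t 1) (t 0) : ℝ) : ℂ)
  rw [Qf_swap02]
  rfl

/-- the data of a literal tree of `KerT`, three tails, order of the converters -/
theorem xqdr {C0 C : N3 (N3 (N3 (N3 Cx)))} {n m l0 h0 l1 h1 l2 h2 : ℕ}
    (hs : (isk C && (rt4 C && (Pool.Agent.Helper86.CX.evC l0 h0 &&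
      (Pool.Agent.Helper86.CX.evC l1 h1 && Pool.Agent.Helper86.CX.evC l2 h2)))) = true)
    (hc : chkB ![(l0 : ℤ), l1, l2] ![(h0 : ℤ), h1, h2] (lqr C) (m : ℤ) = true)
    (hm : modQ Pool.Agent.Helper86.CT.A4 rt4 ((KS.T 2 l0 h0).mo Pool.Agent.Helper86.CT.A4 qd4)
      ((KS.T 1 l1 h1).mo Pool.Agent.Helper86.CT.A4 qd4)
      ((KS.T 0 l2 h2).mo Pool.Agent.Helper86.CT.A4 qd4) C0 n C m (KS.T 2 l0 h0) (KS.T 1 l1 h1)
      (KS.T 0 l2 h2) (lqr C) = true) :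
    XQD 3 (nlf (nlf (nlf (nlf lf0)))) Pool.Agent.Helper86.CT.A4 qd4 rt4 C0 n C m (KS.T 2 l0 h0)
      (KS.T 1 l1 h1) (KS.T 0 l2 h2) (lqr C) := by
  simp only [Bool.and_eq_true] at hs
  obtain ⟨a1, a2, a3, a4, a5⟩ := hs
  refine ⟨avqr a1 a2, ?_, ?_, ?_, hc, hm⟩
  · show (Nat.blt 2 3 && Pool.Agent.Helper86.CX.evC l0 h0) = true
    rw [a3]
    rfl
  · show (Nat.blt 1 3 && Pool.Agent.Helper86.CX.evC l1 h1) = true
    rw [a4]
    rfl
  · show (Nat.blt 0 3 && Pool.Agent.Helper86.CX.evC l2 h2) = true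
    rw [a5]
    rfl

end Pool.Agent.Helper39.NFT
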