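import Mathlib

/-!
The border `x = x_B` of the classes of type B (MP_c75db0): exact facts about the cycle at `‖z‖ = 1`.
`S = k0² + k1² + k2² - 3`, `K = k0 k1 k2`, `T = S + K / z`, `E = - (S + K z)`,
`χ(v) = v³ - T v² + E v + 1`; `- c` = real part of the double eigenvalue `μ`.
-/

set_option autoImplicit false
noncomputable section
namespace Pool.Agent.Helper39.XB0

open Complex ComplexConjugate

/-- the equation of `c` -/
def hc (S K c : ℝ) : ℝ := 16 * c ^ 3 + 4 * S * c ^ 2 + (4 * S - 12) * c - (K ^ 2 - S ^ 2 + 2 * S - 5)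

/-- the value of `x` -/
def xc (S K c : ℝ) : ℝ := 2 * (1 - 2 * c - 2 * c ^ 2 - S) / K

/-- for `‖z‖ = 1` the second part of `z + 1/z` -/
theorem inv_of_norm {z : ℂ} (hz : ‖z‖ = 1) : z⁻¹ = conj z := by
  rw [Complex.inv_def, Complex.normSq_eq_norm_sq, hz]
  simp

theorem re_of_sum {z : ℂ} (hz : ‖z‖ = 1) {x : ℝ} (h : z + z⁻¹ = (x : ℂ)) : z.re = x / 2 := by
  rw [inv_of_norm hz] at h
  have h1 := congrArg Complex.re h
  simp only [add_re, conj_re, ofReal_re] at h1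
  linarith

theorem im_of_norm {z : ℂ} (hz : ‖z‖ = 1) : z.im ^ 2 = 1 - z.re ^ 2 := by
  have h := Complex.normSq_eq_norm_sq z
  rw [hz, Complex.normSq_apply] at h
  nlinarith

/-- THE DOUBLE EIGENVALUE at `x = x_B` -/
theorem exists_mu {S K c : ℝ} (hK : K ≠ 0) (c1 : -1 ≤ c) (c2 : c < 1) (h : hc S K c = 0) {z : ℂ}
    (hz : ‖z‖ = 1) (hx : z + z⁻¹ = ((xc S K c : ℝ) : ℂ)) :
    ∃ μ : ℂ, ‖μ‖ = 1 ∧ μ.re = -c ∧ 0 ≤ μ.im * z⁻¹.im * K ∧
      (S : ℂ) + K * z⁻¹ = 2 * μ - conj μ ^ 2 := by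
  have hr := re_of_sum hz hx
  have hi := im_of_norm hz
  have hre : K * z.re = 1 - 2 * c - 2 * c ^ 2 - S := by
    rw [hr]
    unfold xc
    field_simp
  have him : (K * z.im) ^ 2 = 4 * (1 - c ^ 2) * (1 - c) ^ 2 := by
    rw [mul_pow, hi]
    have : K ^ 2 * (1 - z.re ^ 2) = K ^ 2 - (K * z.re) ^ 2 := by ring
    rw [this, hre]
    unfold hc at h
    linear_combination -h
  have hs : 0 ≤ 1 - c ^ 2 := by nlinarith
  have hc1 : 0 < 1 - c := by linarith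
  -- the imaginary part of `μ`
  set m : ℝ := -(K * z.im) / (2 * (1 - c)) with hm
  have hm2 : m ^ 2 = 1 - c ^ 2 := by
    rw [hm, div_pow, neg_sq, him]
    field_simp
    ring
  refine ⟨⟨-c, m⟩, ?_, rfl, ?_, ?_⟩
  · have : ‖(⟨-c, m⟩ : ℂ)‖ ^ 2 = 1 := by
      rw [← Complex.normSq_eq_norm_sq, Complex.normSq_apply]
      show -c * -c + m * m = 1
      nlinarith
    have h0 := norm_nonneg (⟨-c, m⟩ : ℂ)
    nlinarith
  · rw [inv_of_norm hz]
    show 0 ≤ m * (conj z).im * K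
    rw [conj_im]
    have : m * -z.im * K = (K * z.im) ^ 2 / (2 * (1 - c)) := by
      rw [hm]
      field_simp
    rw [this]
    positivity
  · rw [inv_of_norm hz]
    apply Complex.ext
    · simp only [add_re, ofReal_re, mul_re, ofReal_im, conj_re, conj_im, sub_re, pow_two, re_ofNat,
        im_ofNat]
      nlinarith
    · simp only [add_im, ofReal_im, mul_im, ofReal_re, conj_re, conj_im, sub_im, pow_two, re_ofNat,
        im_ofNat]
      have e : m * (2 * (1 - c)) = -(K * z.im) := by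
        rw [hm]
        field_simp
      linarith

/-- everything at the border: `ν = - conj μ ²` is the third eigenvalue -/
theorem border {S K : ℝ} {z μ : ℂ} (hz : ‖z‖ = 1) (hμ : ‖μ‖ = 1)
    (h : (S : ℂ) + K * z⁻¹ = 2 * μ - conj μ ^ 2) :
    (∀ v : ℂ, v ^ 3 - (S + K * z⁻¹) * v ^ 2 + -(S + K * z) * v + 1 =
      (v - μ) ^ 2 * (v - -conj μ ^ 2)) ∧ (S : ℂ) + K * z = 2 * conj μ - μ ^ 2 := by
  have hm := inv_of_norm hμ
  have hm0 : μ ≠ 0 := by
    intro h0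
    rw [h0, norm_zero] at hμ
    exact absurd hμ (by norm_num)
  have hmm : μ * conj μ = 1 := by
    rw [← hm]
    exact mul_inv_cancel₀ hm0
  have h2 : (S : ℂ) + K * z = 2 * conj μ - μ ^ 2 := by
    have h3 := congrArg conj h
    rw [inv_of_norm hz, map_add, map_mul, map_sub, map_mul, map_pow, conj_conj, conj_conj,
      conj_ofReal, conj_ofReal, Complex.conj_ofNat] at h3
    exact h3
  refine ⟨fun v => ?_, h2⟩
  rw [h, h2]
  linear_combination (2 * conj μ * v - 1 - μ * conj μ) * hmm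

/-- a simple root of `χ` at the border: `s = T - ν = 2 μ`, `d = ν² - T ν + E = μ²`,
`g = 2 ν / s = - conj μ ³`, `τ = 1 - 4 d / s² = 0` -/
theorem border_root {S K : ℝ} {z μ : ℂ} (hz : ‖z‖ = 1) (hμ : ‖μ‖ = 1)
    (h : (S : ℂ) + K * z⁻¹ = 2 * μ - conj μ ^ 2) {T E ν : ℂ} (hT : T = S + K * z⁻¹)
    (hE : E = -(S + K * z)) (h0 : ν ^ 3 - T * ν ^ 2 + E * ν + 1 = 0)
    (h1 : 3 * ν ^ 2 - 2 * T * ν + E ≠ 0) :
    ν = -conj μ ^ 2 ∧ ‖ν‖ = 1 ∧ T - ν = 2 * μ ∧ ν ^ 2 - T * ν + E = μ ^ 2 ∧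
      2 * ν / (T - ν) = -conj μ ^ 3 ∧ ‖2 * ν / (T - ν)‖ = 1 ∧
      1 - 4 * (ν ^ 2 - T * ν + E) / (T - ν) ^ 2 = 0 := by
  obtain ⟨hb, h2⟩ := border hz hμ h
  have hm := inv_of_norm hμ
  have hm0 : μ ≠ 0 := by
    intro h0
    rw [h0, norm_zero] at hμ
    exact absurd hμ (by norm_num)
  have hmm : μ * conj μ = 1 := by
    rw [← hm]
    exact mul_inv_cancel₀ hm0
  have hν : ν = -conj μ ^ 2 := by
    have h3 := hb ν
    rw [← hT, ← hE, h0] at h3
    rcases mul_eq_zero.1 h3.symm with h4 | h4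
    · exfalso
      apply h1
      have h5 : ν = μ := by
        have := pow_eq_zero_iff (two_ne_zero) |>.1 h4
        linear_combination this
      rw [hT, hE, h, h2, h5]
      linear_combination (2 * conj μ : ℂ) * hmm
    · linear_combination h4
  have e1 : T - ν = 2 * μ := by
    rw [hT, h, hν]
    ring
  have e2 : ν ^ 2 - T * ν + E = μ ^ 2 := by
    rw [hT, hE, h, h2, hν]
    linear_combination (2 * conj μ : ℂ) * hmm
  have e3 : 2 * ν / (T - ν) = -conj μ ^ 3 := by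
    rw [e1, hν, ← hm]
    field_simp
  have hc : ‖conj μ‖ = 1 := by rw [Complex.norm_conj, hμ]
  refine ⟨hν, ?_, e1, e2, e3, ?_, ?_⟩
  · rw [hν, norm_neg, norm_pow, hc, one_pow]
  · rw [e3, norm_neg, norm_pow, hc, one_pow]
  · rw [e1, e2]
    field_simp
    ring

/-! ### divided differences -/

/-- two points of the same vertical line: `z + 1/z = x + i y`, `z0 + 1/z0 = x` -/
theorem dd_z {x z0 z : ℂ} {y : ℝ} (hz0 : z0 ≠ 0) (hz : z ≠ 0) (h0 : z0 + z0⁻¹ = x)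
    (h : z + z⁻¹ = x + (y : ℂ) * I) : (z - z0) * (1 - z⁻¹ * z0⁻¹) = (y : ℂ) * I := by
  have e : (z - z0) * (1 - z⁻¹ * z0⁻¹) = (z + z⁻¹) - (z0 + z0⁻¹) := by
    field_simp
    ring
  rw [e, h, h0]
  ring

/-- the same for `1/z` -/
theorem dd_u {x z0 z : ℂ} {y : ℝ} (hz0 : z0 ≠ 0) (hz : z ≠ 0) (h0 : z0 + z0⁻¹ = x)
    (h : z + z⁻¹ = x + (y : ℂ) * I) : (z⁻¹ - z0⁻¹) * (1 - z * z0) = (y : ℂ) * I := by
  have e : (z⁻¹ - z0⁻¹) * (1 - z * z0) = (z + z⁻¹) - (z0 + z0⁻¹) := by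
    field_simp
    ring
  rw [e, h, h0]
  ring

/-- the difference of two roots -/
theorem dd_nu {T E T0 E0 ν ν0 : ℂ} (h : ν ^ 3 - T * ν ^ 2 + E * ν + 1 = 0)
    (h0 : ν0 ^ 3 - T0 * ν0 ^ 2 + E0 * ν0 + 1 = 0) :
    (ν - ν0) * (ν ^ 2 + ν * ν0 + ν0 ^ 2 - T * (ν + ν0) + E) =
      (T - T0) * ν0 ^ 2 - (E - E0) * ν0 := by
  linear_combination h - h0

end Pool.Agent.Helper39.XB0
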